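import Pool.Agent.NH44.LS.Geo
import Pool.Agent.NH44.LS.Grow3
import Pool.Agent.NH44.SR.Mult

/-!
# Doubling indices of discs of Liouville spheres and the multiplicity
-/

set_option autoImplicit false

open MeasureTheory Real Filter Topology Set Function
open Pool.Agent.Y291.DB (dl dl_pos dl_le dl_sq)
open Pool.Agent.R220.LV (W mem_of_eigen)

namespace Pool.Agent.NH44.LS

theorem Eigen.shift {ρ : ℝ × ℝ → ℝ} {L lam : ℝ} {φ : ℝ × ℝ → ℝ} (h : Eigen ρ L lam φ) (k l : ℤ)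
    (p : ℝ × ℝ) : φ (p.1 + k * L, p.2 + l * (2 * π)) = φ p :=
  (h.inv _ _ ((Same.refl L p).shift k l)).symm

theorem Eigen.to {ρ : ℝ × ℝ → ℝ} {L lam : ℝ} {φ : ℝ × ℝ → ℝ} (h : Eigen ρ L lam φ) :
    Y291.DB.Eigen ρ L 0 lam φ := by
  refine ⟨h.pos, h.smooth, fun p => ?_, fun p => ?_, h.ne, h.eq⟩
  · have := h.shift 1 0 p
    simpa using this
  · have := h.shift 0 1 p
    simpa using this

/-- the smallness of the potential -/
theorem small_pot {κ s0 u M lam d h β2 B : ℝ} {v : ℝ → ℝ} (hκ : 0 ≤ κ) (hM : 0 ≤ M)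
    (hlam : 0 < lam) (hd : 0 < d) (hdl : d ^ 2 * lam ≤ 1 / 4) (hh0 : 0 < h)
    (hs : h * |Real.sin (κ * s0)| ≤ d) (hh2 : h ^ 2 ≤ d) (hβ2 : 0 < β2) (hB : 0 ≤ B)
    (hv0 : ∀ x, 0 ≤ v x) (hv : ∀ x, v x ≤ M * Real.sin (κ * x) ^ 2)
    (hu : |u - s0| ≤ B * h) :
    |(β2 * h) ^ 2 * (lam * v u)| ≤ β2 ^ 2 * (M * (1 + κ * B) ^ 2) := by
  have h0 := hv0 u
  rw [abs_of_nonneg (by positivity)]
  have h1 := sin_lip (κ * u) (κ * s0)
  rw [← mul_sub, abs_mul, abs_of_nonneg hκ] at h1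
  have h2 : h * |Real.sin (κ * u)| ≤ (1 + κ * B) * d := by
    have h3 : h * |Real.sin (κ * u)| ≤ h * (|Real.sin (κ * s0)| + κ * (B * h)) := by gcongr; linarith [mul_le_mul_of_nonneg_left hu hκ]
    have h4 : h * (|Real.sin (κ * s0)| + κ * (B * h)) =
      h * |Real.sin (κ * s0)| + κ * B * h ^ 2 := by ring
    have h5 : κ * B * h ^ 2 ≤ κ * B * d := by gcongr
    linarith
  have h3 : (h * |Real.sin (κ * u)|) ^ 2 ≤ ((1 + κ * B) * d) ^ 2 :=
    pow_le_pow_left₀ (by positivity) h2 2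
  rw [mul_pow, sq_abs] at h3
  calc (β2 * h) ^ 2 * (lam * v u) = β2 ^ 2 * lam * (h ^ 2 * v u) := by ring
    _ ≤ β2 ^ 2 * lam * (h ^ 2 * (M * Real.sin (κ * u) ^ 2)) := by gcongr; exact hv u
    _ = β2 ^ 2 * lam * M * (h ^ 2 * Real.sin (κ * u) ^ 2) := by ring
    _ ≤ β2 ^ 2 * lam * M * ((1 + κ * B) * d) ^ 2 := by gcongr
    _ = β2 ^ 2 * (M * (1 + κ * B) ^ 2) * (d ^ 2 * lam) := by ring
    _ ≤ β2 ^ 2 * (M * (1 + κ * B) ^ 2) * 1 := by gcongr; linarith
    _ = _ := mul_one _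

section

variable {f g : ℝ → ℝ} {L κ m M : ℝ}

/-- The doubling index of a disc. -/
theorem disc_bound (hf : Continuous f) (hg : Continuous g) (hL : 0 < L) (hκ : 0 < κ) (hm : 0 < m)
    (hM : 0 < M) (hf0 : ∀ x, 0 ≤ f x) (hg0 : ∀ y, 0 ≤ g y)
    (hfM : ∀ x, f x ≤ M * Real.sin (κ * x) ^ 2) (hgM : ∀ y, g y ≤ M * Real.sin y ^ 2)
    (lo : ∀ p : ℝ × ℝ, m * (Real.sin (κ * p.1) ^ 2 + Real.sin p.2 ^ 2) ≤ f p.1 + g p.2)
    {C β : ℝ} (hC : 0 < C) (hβ : 0 < β) (hβ1 : β ≤ 1) (hβC : β * (Real.sqrt M * (κ + 2)) ≤ C) :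
    ∃ (β2 : ℝ) (N : ℕ), 0 < β2 ∧ β2 ≤ 1 ∧
      ∀ (lam : ℝ) (φ : ℝ × ℝ → ℝ), Eigen (fun p => f p.1 + g p.2) L lam φ → ∀ c : ℝ × ℝ,
        ∀ n1 n2 : ℕ,
        (∀ t, |t - c.1| ≤ (N + 4) * (β2 * hh κ (dl lam) c) →
          |t + β2 * hh κ (dl lam) c - c.1| ≤ (N + 4) * (β2 * hh κ (dl lam) c) →
          ∃ a ∈ Icc t (t + β2 * hh κ (dl lam) c), ∃ Z : Finset ℝ, Z.card ≤ n1 ∧
            ∀ s, |s - c.2| ≤ (N + 4) * (β2 * hh κ (dl lam) c) → φ (a, s) = 0 → s ∈ Z) →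
        (∀ t, |t - c.2| ≤ (N + 4) * (β2 * hh κ (dl lam) c) →
          |t + β2 * hh κ (dl lam) c - c.2| ≤ (N + 4) * (β2 * hh κ (dl lam) c) →
          ∃ a ∈ Icc t (t + β2 * hh κ (dl lam) c), ∃ Z : Finset ℝ, Z.card ≤ n2 ∧
            ∀ s, |s - c.1| ≤ (N + 4) * (β2 * hh κ (dl lam) c) → φ (s, a) = 0 → s ∈ Z) →
        doubling (fun p => f p.1 + g p.2) L φ c (C / Real.sqrt lam) ≤
          N * (20000 * (2 * n1 + 2 * n2 + 1)) / Real.log 2 := by
  obtain ⟨ε, hε, hG⟩ := growth3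
  have hρc : Continuous fun p : ℝ × ℝ => f p.1 + g p.2 :=
    (hf.comp continuous_fst).add (hg.comp continuous_snd)
  have hi : ∀ p : ℝ × ℝ, f p.1 + g p.2 ≤ M * (Real.sin (κ * p.1) ^ 2 + Real.sin p.2 ^ 2) :=
    fun p => by
      have := hfM p.1
      have := hgM p.2
      linarith
  obtain ⟨A, hA, hout⟩ := outer (L := L) hL hκ hm hρc lo hC
  set K2 : ℝ := M * (1 + (κ + 1) * (A + 27)) ^ 2 with hK2
  have hK20 : 0 < K2 := by positivity
  set β2 : ℝ := min (β / 2) (ε / (K2 + 1)) with hβ2d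
  have hβ2 : 0 < β2 := by positivity
  have hβ2β : β2 ≤ β / 2 := min_le_left _ _
  have hβ21 : β2 ≤ 1 := by linarith
  have hβ2ε : β2 ^ 2 * K2 ≤ ε := by
    have h1 : β2 ≤ ε / (K2 + 1) := min_le_right _ _
    rw [le_div_iff₀ (by positivity)] at h1
    nlinarith
  have hN1 := Nat.le_ceil (A / β2)
  have hN2 := Nat.ceil_lt_add_one (show 0 ≤ A / β2 by positivity)
  set N := ⌈A / β2⌉₊ with hN
  have hNA : A ≤ N * β2 := by
    rwa [div_le_iff₀ hβ2] at hN1
  have hNB : (N + 26) * β2 ≤ A + 27 := by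
    have h1 : ((N : ℝ)) * β2 ≤ A + β2 := by
      have := mul_le_mul_of_nonneg_right hN2.le hβ2.le
      rw [add_mul, div_mul_cancel₀ _ hβ2.ne', one_mul] at this
      exact this
    linarith
  refine ⟨β2, N, hβ2, hβ21, ?_⟩
  intro lam φ hφ c n1 n2 hA1 hB1
  have hlam := hφ.pos
  have hdl := dl_pos hlam
  have hdlam := LT.dl_lam hlam
  set d := dl lam with hd
  set h := hh κ d c with hhd
  have hh0 : 0 < h := hh_pos hdl c
  have hδ0 : 0 < β2 * h := by positivity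
  have hW := mem_of_eigen hf hg hφ.to
  obtain ⟨-, φx, φxx, φy, φyy, hSP⟩ := hW
  have hS := hSP.s
  have hS' : Y291.PA.Sol2 (fun x y => lam * f x + lam * g y) (fun x y => φ (x, y))
      φx φxx φy φyy := by
    have e : (fun x y => lam * f x + lam * g y) = fun x y => lam * (f x + g y) := by
      funext x y
      ring
    rw [e]
    exact hS
  have hlog2 : 0 < Real.log 2 := Real.log_pos one_lt_two
  set E : ℝ := N * (20000 * (2 * n1 + 2 * n2 + 1)) with hE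
  have hE0 : 0 ≤ E := by positivity
  have hWc := hh_W (κ := κ) hdl c
  rw [← hhd] at hWc
  have hs1 : h * |Real.sin (κ * c.1)| ≤ d := by
    refine le_trans ?_ hWc
    unfold WW
    nlinarith [abs_nonneg (Real.sin c.2)]
  have hs2 : h * |Real.sin (1 * c.2)| ≤ d := by
    refine le_trans ?_ hWc
    unfold WW
    rw [one_mul]
    nlinarith [abs_nonneg (Real.sin (κ * c.1))]
  have hh2 := hh_sq (κ := κ) hdl c
  rw [← hhd] at hh2
  have hdist : ∀ a b : ℝ, |a - b| ≤ (N + 26) * (β2 * h) → |a - b| ≤ (A + 27) * h := by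
    intro a b hab
    refine hab.trans ?_
    rw [← mul_assoc]
    exact mul_le_mul_of_nonneg_right hNB hh0.le
  have hP1 : ∀ x, |x - c.1| ≤ (N + 26) * (β2 * h) → |(β2 * h) ^ 2 * (lam * f x)| ≤ ε := by
    intro x hx
    refine (small_pot (v := f) (κ := κ) (B := A + 27) hκ.le hM.le hlam hdl hdlam hh0 hs1 hh2 hβ2
      (by positivity) hf0 hfM (hdist _ _ hx)).trans (le_trans ?_ hβ2ε)
    rw [hK2]
    gcongr
    linarith
  have hQ1 : ∀ y, |y - c.2| ≤ (N + 26) * (β2 * h) → |(β2 * h) ^ 2 * (lam * g y)| ≤ ε := by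
    intro y hy
    refine (small_pot (v := g) (κ := 1) (B := A + 27) zero_le_one hM.le hlam hdl hdlam hh0 hs2 hh2
      hβ2 (by positivity) hg0 (fun y => by rw [one_mul]; exact hgM y)
      (hdist _ _ hy)).trans (le_trans ?_ hβ2ε)
    rw [hK2]
    gcongr
    linarith
  have hgrow := hG (fun x => lam * f x) (fun y => lam * g y) (fun x y => φ (x, y)) φx φxx φy φyy
    (by fun_prop) (by fun_prop) hS' c (β2 * h) N n1 n2 hδ0 hP1 hQ1 hA1 hB1
  -- the growth on the large disc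
  set ρ : ℝ × ℝ → ℝ := fun p => f p.1 + g p.2 with hρ
  have key : ∀ m : ℝ, 0 < m → (∀ q ∈ disc ρ L c (C / Real.sqrt lam), |φ q| ≤ m) →
      ∀ q ∈ disc ρ L c (2 * (C / Real.sqrt lam)), |φ q| ≤ m * Real.exp E := by
    intro m hm hsmall q hq
    have k1 := hgrow m hm (fun x y hx hy => hsmall (x, y)
      (inner (L := L) hκ hM hρc hi hC hβ hβ1 hβC hlam (by
        show |x - c.1| + |y - c.2| ≤ β * h
        have : β2 * h ≤ β / 2 * h := mul_le_mul_of_nonneg_right hβ2β hh0.le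
        linarith)))
    obtain ⟨q', hq', g1, g2⟩ := hout lam hlam c q hq
    rw [hφ.inv q q' hq']
    have hAh : A * h ≤ N * (β2 * h) := by
      rw [← mul_assoc]
      exact mul_le_mul_of_nonneg_right hNA hh0.le
    exact k1 q'.1 q'.2 (g1.trans hAh) (g2.trans hAh)
  obtain ⟨B, hB0, hBφ⟩ := Y291.DB.bounded_of_per hL hφ.smooth.continuous hφ.to.perx hφ.to.pery
  have hbdd : BddAbove ((fun q => |φ q|) '' disc ρ L c (C / Real.sqrt lam)) := by
    refine ⟨B, ?_⟩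
    rintro _ ⟨q, hq, rfl⟩
    exact hBφ q
  unfold doubling
  set S1 := sSup ((fun q => |φ q|) '' disc ρ L c (C / Real.sqrt lam)) with hS1
  set S2 := sSup ((fun q => |φ q|) '' disc ρ L c (2 * (C / Real.sqrt lam))) with hS2
  have hS10 : 0 ≤ S1 := Real.sSup_nonneg (by
    rintro _ ⟨q, _, rfl⟩
    exact abs_nonneg _)
  have hS20 : 0 ≤ S2 := Real.sSup_nonneg (by
    rintro _ ⟨q, _, rfl⟩
    exact abs_nonneg _)
  have hbound : Real.logb 2 (Real.exp E) = E / Real.log 2 := by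
    rw [← Real.log_div_log, Real.log_exp]
  have hE1 : 0 ≤ E / Real.log 2 := by positivity
  rcases hS10.eq_or_lt with h0 | h0
  · rw [← h0, div_zero, Real.logb_zero]
    exact hE1
  · have k1 : S2 ≤ S1 * Real.exp E := by
      refine Real.sSup_le ?_ (by positivity)
      rintro _ ⟨q, hq, rfl⟩
      exact key S1 h0 (fun q hq => le_csSup hbdd ⟨q, hq, rfl⟩) q hq
    have k2 : S2 / S1 ≤ Real.exp E := by
      rw [div_le_iff₀ h0]
      linarith
    rw [← hbound]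
    rcases (div_nonneg hS20 hS10).eq_or_lt with h5 | h5
    · rw [← h5, Real.logb_zero, hbound]
      exact hE1
    · exact Real.logb_le_logb_of_le one_lt_two h5 k2

open Classical in
/-- The number of the centers close to a point. -/
theorem mult_count {ρ : ℝ × ℝ → ℝ} {lam C C₁ β : ℝ} (hκ : 0 < κ) (hlam : 0 < lam)
    (hβ : 0 < β) (hC1 : 0 < C₁) {ι : Type} [Fintype ι] {c : ι → ℝ × ℝ}
    (hd : ∀ p q : ℝ × ℝ, |q.1 - p.1| + |q.2 - p.2| ≤ β * hh κ (dl lam) p →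
      q ∈ disc ρ L p (C / Real.sqrt lam))
    (hmult : ∀ q : ℝ × ℝ, ({i | q ∈ disc ρ L (c i) (C / Real.sqrt lam)}.ncard : ℝ) ≤ C₁)
    {A : ℝ} (hA : 0 ≤ A) {D : ℕ}
    (hD : 2 * A * (1 + (κ + 1) * (2 * A)) ^ 2 ≤ D * β) (x : ℝ × ℝ) :
    ((Finset.univ.filter fun i => |x.1 - (c i).1| ≤ A * hh κ (dl lam) (c i) ∧
      |x.2 - (c i).2| ≤ A * hh κ (dl lam) (c i)).card : ℝ) ≤ (2 * D + 1) ^ 2 * C₁ := by
  have hdl := dl_pos hlam
  set d := dl lam with hdd
  set B : ℝ := 1 + (κ + 1) * (2 * A) with hB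
  have hB1 : 1 ≤ B := by
    rw [hB]
    have : 0 ≤ (κ + 1) * (2 * A) := by positivity
    linarith
  set H := hh κ d x with hH
  have hH0 : 0 < H := hh_pos hdl x
  set η := β * H / (2 * B) with hη
  have hη0 : 0 < η := by positivity
  set F := Finset.univ.filter fun i => |x.1 - (c i).1| ≤ A * hh κ d (c i) ∧
      |x.2 - (c i).2| ≤ A * hh κ d (c i) with hF
  have hFc : ∀ i ∈ F, hh κ d (c i) ≤ B * H ∧ H ≤ B * hh κ d (c i) := by
    intro i hi
    obtain ⟨h1, h2⟩ := (Finset.mem_filter.1 hi).2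
    have h3 : |x.1 - (c i).1| + |x.2 - (c i).2| ≤ (2 * A) * hh κ d (c i) := by linarith
    exact ⟨hh_cmp1 hκ hdl (by positivity) h3, hh_cmp2 hκ hdl (by positivity) h3⟩
  set I := Finset.Icc (-(D : ℤ)) D with hI
  set K : Finset (ℤ × ℤ) := I ×ˢ I with hK
  set fl : ι → ℤ × ℤ := fun i => (⌊((c i).1 - x.1) / η⌋, ⌊((c i).2 - x.2) / η⌋) with hfl
  have hIc : (I.card : ℝ) = 2 * D + 1 := by
    rw [hI, Int.card_Icc]
    have : ((D : ℤ) + 1 - -(D : ℤ)).toNat = 2 * D + 1 := by omega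
    rw [this]
    push_cast
    ring
  have hKc : (K.card : ℝ) = (2 * D + 1) ^ 2 := by
    rw [hK, Finset.card_product]
    push_cast
    rw [hIc]
    ring
  have hmaps : ∀ i ∈ F, fl i ∈ K := by
    intro i hi
    obtain ⟨h1, h2⟩ := (Finset.mem_filter.1 hi).2
    have h3 := (hFc i hi).1
    have h4 : A * hh κ d (c i) ≤ D * η := by
      have h5 : A * hh κ d (c i) ≤ A * (B * H) := mul_le_mul_of_nonneg_left h3 hA
      have h6 : D * η = D * β * (H / (2 * B)) := by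
        rw [hη]
        ring
      have h7 : A * (B * H) = 2 * A * B ^ 2 * (H / (2 * B)) := by
        field_simp
      rw [h6]
      refine h5.trans ?_
      rw [h7]
      exact mul_le_mul_of_nonneg_right hD (by positivity)
    rw [hK, hI]
    refine Finset.mem_product.2 ⟨SR.floor_mem hη0 ?_, SR.floor_mem hη0 ?_⟩
    · rw [abs_sub_comm]
      linarith
    · rw [abs_sub_comm]
      linarith
  have hfib : ∀ k ∈ K, ((F.filter fun i => fl i = k).card : ℝ) ≤ C₁ := by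
    intro k _
    rcases (F.filter fun i => fl i = k).eq_empty_or_nonempty with h0 | ⟨j, hj⟩
    · rw [h0]
      simpa using hC1.le
    · have hjk := (Finset.mem_filter.1 hj).2
      have h1 := hmult (c j)
      have h2 : {i | c j ∈ disc ρ L (c i) (C / Real.sqrt lam)} =
          ((Finset.univ.filter fun i => c j ∈ disc ρ L (c i) (C / Real.sqrt lam) : Finset ι) :
            Set ι) := by
        ext i
        simp
      rw [h2, ncard_coe_finset] at h1
      refine le_trans (Nat.cast_le.2 (Finset.card_le_card fun i hi => ?_)) h1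
      have hik := (Finset.mem_filter.1 hi).2
      have hiF := (Finset.mem_filter.1 hi).1
      refine Finset.mem_filter.2 ⟨Finset.mem_univ _, hd _ _ ?_⟩
      have he : fl i = fl j := hik.trans hjk.symm
      have e1 : ⌊((c i).1 - x.1) / η⌋ = ⌊((c j).1 - x.1) / η⌋ := congrArg Prod.fst he
      have e2 : ⌊((c i).2 - x.2) / η⌋ = ⌊((c j).2 - x.2) / η⌋ := congrArg Prod.snd he
      have g1 := SR.floor_close hη0 e1
      have g2 := SR.floor_close hη0 e2
      rw [sub_sub_sub_cancel_right, abs_sub_comm] at g1 g2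
      have g3 := (hFc i hiF).2
      have g4 : 2 * η ≤ β * hh κ d (c i) := by
        have h6 : 2 * η = β * (H / B) := by
          rw [hη]
          field_simp
        rw [h6]
        refine mul_le_mul_of_nonneg_left ?_ hβ.le
        rw [div_le_iff₀ (by linarith)]
        linarith
      linarith
  have h1 := Finset.card_eq_sum_card_fiberwise hmaps
  have h2 : (F.card : ℝ) = ∑ k ∈ K, ((F.filter fun i => fl i = k).card : ℝ) := by
    rw [h1]
    push_cast
    rfl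
  rw [h2]
  calc ∑ k ∈ K, ((F.filter fun i => fl i = k).card : ℝ) ≤ ∑ k ∈ K, C₁ := Finset.sum_le_sum hfib
    _ = (2 * D + 1) ^ 2 * C₁ := by rw [Finset.sum_const, nsmul_eq_mul, hKc]

end

end Pool.Agent.NH44.LS
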