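import Mathlib

/-!
# Curves that are short with respect to the weight `|sin|`
-/

set_option autoImplicit false

open MeasureTheory Real Filter Topology Set Function intervalIntegral

namespace Pool.Agent.NH44.LS

theorem sin_add_abs (a b : ℝ) : |Real.sin b| ≤ |Real.sin (a + b)| + |Real.sin a| := by
  have h1 : Real.sin b = Real.sin (a + b) * Real.cos a - Real.cos (a + b) * Real.sin a := by
    rw [← Real.sin_sub]
    congr 1
    ring
  rw [h1]
  refine (abs_sub _ _).trans ?_
  rw [abs_mul, abs_mul]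
  have h2 := Real.abs_cos_le_one a
  have h3 := Real.abs_cos_le_one (a + b)
  have h4 := abs_nonneg (Real.sin (a + b))
  have h5 := abs_nonneg (Real.sin a)
  nlinarith

theorem sin_lip (a b : ℝ) : |Real.sin a| ≤ |Real.sin b| + |a - b| := by
  have h1 : |Real.sin a - Real.sin b| ≤ |a - b| := by
    have h2 := Real.abs_sin_sub_sin_le a b
    exact h2
  have h3 := abs_sub_abs_le_abs_sub (Real.sin a) (Real.sin b)
  linarith

/-- the integral of `|sin (κ u)|` -/
noncomputable def JJ (κ a b : ℝ) : ℝ := ∫ u in a..b, |Real.sin (κ * u)|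

theorem sinc_cont (κ : ℝ) : Continuous fun u : ℝ => |Real.sin (κ * u)| := by fun_prop

theorem JJ_sq {κ x Δ : ℝ} (hκ : 0 < κ) (hΔ : 0 ≤ Δ) (h : κ * Δ ≤ π) :
    κ * Δ ^ 2 ≤ 2 * π * JJ κ x (x + Δ) := by
  have hπ := Real.pi_pos
  have hc := sinc_cont κ
  have h1 : JJ κ x (x + Δ) = ∫ u in x..(x + Δ / 2), (|Real.sin (κ * u)| +
      |Real.sin (κ * (u + Δ / 2))|) := by
    have hc2 : IntervalIntegrable (fun u : ℝ => |Real.sin (κ * (u + Δ / 2))|) volume x
        (x + Δ / 2) := Continuous.intervalIntegrable (by fun_prop) _ _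
    rw [intervalIntegral.integral_add (hc.intervalIntegrable _ _) hc2]
    have h2 : ∫ u in x..(x + Δ / 2), |Real.sin (κ * (u + Δ / 2))| =
        ∫ u in (x + Δ / 2)..(x + Δ / 2 + Δ / 2), |Real.sin (κ * u)| :=
      intervalIntegral.integral_comp_add_right (fun u => |Real.sin (κ * u)|) (Δ / 2)
    rw [h2, intervalIntegral.integral_add_adjacent_intervals (hc.intervalIntegrable _ _)
      (hc.intervalIntegrable _ _)]
    unfold JJ
    congr 1
    ring
  have h2 : ∀ u ∈ Icc x (x + Δ / 2), κ * Δ / π ≤ |Real.sin (κ * u)| +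
      |Real.sin (κ * (u + Δ / 2))| := by
    intro u _
    have h3 := sin_add_abs (κ * u) (κ * (Δ / 2))
    have h4 : κ * u + κ * (Δ / 2) = κ * (u + Δ / 2) := by ring
    rw [h4] at h3
    have h5 : 2 / π * (κ * (Δ / 2)) ≤ Real.sin (κ * (Δ / 2)) :=
      Real.mul_le_sin (by positivity) (by linarith)
    have h6 := le_abs_self (Real.sin (κ * (Δ / 2)))
    have h7 : 2 / π * (κ * (Δ / 2)) = κ * Δ / π := by
      field_simp
    linarith
  have h3 : ∫ _ in x..(x + Δ / 2), κ * Δ / π ≤ JJ κ x (x + Δ) := by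
    rw [h1]
    refine intervalIntegral.integral_mono_on (by linarith)
      (continuous_const.intervalIntegrable _ _) ?_ h2
    exact Continuous.intervalIntegrable (by fun_prop) _ _
  rw [intervalIntegral.integral_const, smul_eq_mul] at h3
  have h4 : (x + Δ / 2 - x) * (κ * Δ / π) * (2 * π) = κ * Δ ^ 2 := by
    field_simp
    ring
  have h5 := mul_le_mul_of_nonneg_right h3 (by positivity : (0 : ℝ) ≤ 2 * π)
  linarith

theorem JJ_mono {κ a b c : ℝ} (hab : a ≤ b) (hbc : b ≤ c) : JJ κ a b ≤ JJ κ a c := by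
  unfold JJ
  have hc := sinc_cont κ
  rw [← intervalIntegral.integral_add_adjacent_intervals (hc.intervalIntegrable a b)
    (hc.intervalIntegrable b c)]
  have : 0 ≤ ∫ u in b..c, |Real.sin (κ * u)| :=
    intervalIntegral.integral_nonneg hbc fun _ _ => abs_nonneg _
  linarith

theorem JJ_nonneg {κ a b : ℝ} (hab : a ≤ b) : 0 ≤ JJ κ a b :=
  intervalIntegral.integral_nonneg hab fun _ _ => abs_nonneg _

theorem JJ_small {κ x Δ : ℝ} (hκ : 0 < κ) (hΔ : 0 ≤ Δ) (h : JJ κ x (x + Δ) < π / (2 * κ)) :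
    κ * Δ ≤ π := by
  have hπ := Real.pi_pos
  by_contra hcon
  push Not at hcon
  have h1 : π / κ ≤ Δ := by
    rw [div_le_iff₀ hκ]
    linarith
  have h2 := JJ_sq (x := x) (Δ := π / κ) hκ (by positivity) (by
    rw [mul_div_cancel₀ _ hκ.ne'])
  have h3 := JJ_mono (κ := κ) (a := x) (b := x + π / κ) (c := x + Δ)
    (by linarith [div_pos hπ hκ]) (by linarith)
  have h4 : κ * (π / κ) ^ 2 = 2 * π * (π / (2 * κ)) := by
    field_simp
  rw [h4] at h2
  have h5 : π / (2 * κ) ≤ JJ κ x (x + π / κ) := le_of_mul_le_mul_left h2 (by positivity)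
  linarith

theorem JJ_lin {κ x Δ : ℝ} (hκ : 0 < κ) (hΔ : 0 ≤ Δ) :
    Δ * |Real.sin (κ * x)| ≤ JJ κ x (x + Δ) + κ * Δ ^ 2 / 2 := by
  have hc := sinc_cont κ
  have h1 : ∫ u in x..(x + Δ), (|Real.sin (κ * x)| - κ * (u - x)) ≤ JJ κ x (x + Δ) := by
    refine intervalIntegral.integral_mono_on (by linarith)
      (Continuous.intervalIntegrable (by fun_prop) _ _) (hc.intervalIntegrable _ _) ?_
    intro u hu
    have h2 := sin_lip (κ * x) (κ * u)
    have h3 : |κ * x - κ * u| = κ * (u - x) := by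
      rw [← mul_sub, abs_mul, abs_of_pos hκ, abs_sub_comm, abs_of_nonneg (by linarith [hu.1])]
    rw [h3] at h2
    linarith
  have h2 : ∫ u in x..(x + Δ), (|Real.sin (κ * x)| - κ * (u - x)) =
      Δ * |Real.sin (κ * x)| - κ * Δ ^ 2 / 2 := by
    rw [intervalIntegral.integral_sub (continuous_const.intervalIntegrable _ _)
        (Continuous.intervalIntegrable (by fun_prop) _ _),
      intervalIntegral.integral_const, intervalIntegral.integral_const_mul,
      intervalIntegral.integral_comp_sub_right (fun u => u) x, integral_id]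
    simp only [smul_eq_mul]
    ring
  linarith

theorem JJ_neg (κ a b : ℝ) : JJ κ (-b) (-a) = JJ κ a b := by
  unfold JJ
  rw [← intervalIntegral.integral_comp_neg]
  refine intervalIntegral.integral_congr fun u _ => ?_
  simp only [mul_neg, Real.sin_neg, abs_neg]

/-- the three estimates, both orientations -/
theorem JJ_all {κ x y E : ℝ} (hκ : 0 < κ) (hE : E < π / (2 * κ)) (h : |JJ κ x y| ≤ E) :
    κ * |y - x| ^ 2 ≤ 2 * π * E ∧ |y - x| * |Real.sin (κ * x)| ≤ (1 + π) * E := by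
  have hπ := Real.pi_pos
  have key : ∀ x Δ : ℝ, 0 ≤ Δ → JJ κ x (x + Δ) ≤ E →
      κ * Δ ^ 2 ≤ 2 * π * E ∧ Δ * |Real.sin (κ * x)| ≤ (1 + π) * E := by
    intro x Δ hΔ h
    have h1 := JJ_small hκ hΔ (h.trans_lt hE)
    have h2 := JJ_sq (x := x) hκ hΔ h1
    have h3 := JJ_lin (x := x) hκ hΔ
    have h4 : 2 * π * JJ κ x (x + Δ) ≤ 2 * π * E := mul_le_mul_of_nonneg_left h (by positivity)
    constructor
    · linarith
    · have h5 : JJ κ x (x + Δ) + κ * Δ ^ 2 / 2 ≤ (1 + π) * JJ κ x (x + Δ) := by linarith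
      have h6 : (1 + π) * JJ κ x (x + Δ) ≤ (1 + π) * E := mul_le_mul_of_nonneg_left h (by positivity)
      linarith
  rcases le_total x y with hxy | hxy
  · have h1 := key x (y - x) (by linarith) (by
      rw [add_sub_cancel]
      exact (le_abs_self _).trans h)
    rwa [abs_of_nonneg (by linarith : 0 ≤ y - x)]
  · have h1 := key (-x) (x - y) (by linarith) (by
      have e1 : -x + (x - y) = -y := by ring
      rw [e1, JJ_neg]
      have e2 : JJ κ y x = -JJ κ x y := by
        unfold JJ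
        rw [intervalIntegral.integral_symm]
      rw [e2]
      exact (neg_le_abs _).trans h)
    rw [mul_neg, Real.sin_neg, abs_neg] at h1
    rwa [abs_sub_comm, abs_of_nonneg (by linarith : 0 ≤ x - y)]

/-- change of variables -/
theorem JJ_curve {κ : ℝ} {u u' : ℝ → ℝ} (hu : ∀ t, HasDerivAt u (u' t) t) (hu' : Continuous u')
    {t : ℝ} (ht : 0 ≤ t) : |JJ κ (u 0) (u t)| ≤ ∫ s in (0 : ℝ)..t, |Real.sin (κ * u s)| * |u' s| := by
  have huc : Continuous u := continuous_iff_continuousAt.2 fun s => (hu s).continuousAt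
  have h1 : ∫ s in (0 : ℝ)..t, ((fun v => |Real.sin (κ * v)|) ∘ u) s * u' s =
      ∫ v in (u 0)..(u t), |Real.sin (κ * v)| :=
    intervalIntegral.integral_comp_mul_deriv (fun s _ => hu s) hu'.continuousOn (sinc_cont κ)
  unfold JJ
  rw [← h1]
  refine (intervalIntegral.abs_integral_le_integral_abs ht).trans (le_of_eq ?_)
  refine intervalIntegral.integral_congr fun s _ => ?_
  simp only [Function.comp, abs_mul, abs_abs]

/-- the cross estimate -/
theorem cross {κ κ' E : ℝ} {u u' v v' : ℝ → ℝ} (hκ : 0 < κ) (hκ' : 0 < κ')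
    (hE : E < π / (2 * κ)) (hE' : E < π / (2 * κ')) (hE0 : 0 < E)
    (hu : ∀ t, HasDerivAt u (u' t) t) (hu' : Continuous u') (hv : ∀ t, HasDerivAt v (v' t) t)
    (hv' : Continuous v')
    (h1 : ∀ t ∈ Icc (0 : ℝ) 1, ∫ s in (0 : ℝ)..t, |Real.sin (κ * u s)| * |u' s| ≤ E)
    (h2 : ∀ t ∈ Icc (0 : ℝ) 1, ∫ s in (0 : ℝ)..t, |Real.sin (κ' * v s)| * |v' s| ≤ E)
    (h3 : ∫ s in (0 : ℝ)..1, |Real.sin (κ' * v s)| * |u' s| ≤ E) :
    κ * |u 1 - u 0| ^ 2 ≤ 2 * π * E ∧
      |u 1 - u 0| * |Real.sin (κ * u 0)| ≤ (1 + π) * E ∧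
      |u 1 - u 0| * |Real.sin (κ' * v 0)| ≤ (2 + Real.sqrt (4 * π * (1 + π) * κ' / κ)) * E := by
  have hπ := Real.pi_pos
  have hvc : Continuous v := continuous_iff_continuousAt.2 fun s => (hv s).continuousAt
  have huc : Continuous u := continuous_iff_continuousAt.2 fun s => (hu s).continuousAt
  have a1 := JJ_all hκ hE ((JJ_curve (κ := κ) hu hu' zero_le_one).trans
    (h1 1 (right_mem_Icc.2 zero_le_one)))
  refine ⟨a1.1, a1.2, ?_⟩
  set σ := |Real.sin (κ' * v 0)| with hσ
  have hσ0 : 0 ≤ σ := abs_nonneg _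
  by_cases hc : σ ^ 2 < 2 * (1 + π) * κ' * E
  · have b1 : (|u 1 - u 0| * σ) ^ 2 ≤ (4 * π * (1 + π) * κ' / κ) * E ^ 2 := by
      rw [mul_pow]
      have b2 : |u 1 - u 0| ^ 2 ≤ 2 * π * E / κ := by
        rw [le_div_iff₀ hκ]
        linarith [a1.1]
      calc |u 1 - u 0| ^ 2 * σ ^ 2 ≤ (2 * π * E / κ) * (2 * (1 + π) * κ' * E) :=
            mul_le_mul b2 hc.le (sq_nonneg _) (by positivity)
        _ = (4 * π * (1 + π) * κ' / κ) * E ^ 2 := by
            field_simp
            ring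
    have b3 : |u 1 - u 0| * σ ≤ Real.sqrt (4 * π * (1 + π) * κ' / κ) * E := by
      refine abs_le_of_sq_le_sq' (?_ : (|u 1 - u 0| * σ) ^ 2 ≤
        (Real.sqrt (4 * π * (1 + π) * κ' / κ) * E) ^ 2) (by positivity) |>.2
      rw [mul_pow (Real.sqrt _) E, Real.sq_sqrt (by positivity)]
      exact b1
    nlinarith
  · push Not at hc
    have hσp : 0 < σ := by
      rcases hσ0.eq_or_lt with h | h
      · rw [← h] at hc
        have : 0 < 2 * (1 + π) * κ' * E := by positivity
        nlinarith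
      · exact h
    have b1 : ∀ t ∈ Icc (0 : ℝ) 1, σ / 2 ≤ |Real.sin (κ' * v t)| := by
      intro t ht
      have b2 := (JJ_all hκ' hE' ((JJ_curve (κ := κ') hv hv' ht.1).trans (h2 t ht))).2
      have b3 := sin_lip (κ' * v 0) (κ' * v t)
      have b4 : |κ' * v 0 - κ' * v t| = κ' * |v t - v 0| := by
        rw [← mul_sub, abs_mul, abs_of_pos hκ', abs_sub_comm]
      rw [b4, ← hσ] at b3
      rw [← hσ] at b2
      have b5 : κ' * |v t - v 0| ≤ σ / 2 := by
        have b6 : κ' * |v t - v 0| * σ ≤ σ / 2 * σ := by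
          calc κ' * |v t - v 0| * σ = κ' * (|v t - v 0| * σ) := by ring
            _ ≤ κ' * ((1 + π) * E) := mul_le_mul_of_nonneg_left b2 hκ'.le
            _ = (2 * (1 + π) * κ' * E) / 2 := by ring
            _ ≤ σ ^ 2 / 2 := by linarith
            _ = σ / 2 * σ := by ring
        exact le_of_mul_le_mul_right b6 hσp
      linarith
    have b2 : σ / 2 * ∫ s in (0 : ℝ)..1, |u' s| ≤ E := by
      refine le_trans ?_ h3
      rw [← intervalIntegral.integral_const_mul]
      refine intervalIntegral.integral_mono_on zero_le_one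
        (Continuous.intervalIntegrable (by fun_prop) _ _)
        (Continuous.intervalIntegrable (by fun_prop) _ _) fun t ht => ?_
      exact mul_le_mul_of_nonneg_right (b1 t ht) (abs_nonneg _)
    have b3 : |u 1 - u 0| ≤ ∫ s in (0 : ℝ)..1, |u' s| := by
      have b4 : ∫ s in (0 : ℝ)..1, u' s = u 1 - u 0 :=
        intervalIntegral.integral_eq_sub_of_hasDerivAt (fun s _ => hu s)
          (hu'.intervalIntegrable _ _)
      rw [← b4]
      exact intervalIntegral.abs_integral_le_integral_abs zero_le_one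
    have b4 : σ / 2 * |u 1 - u 0| ≤ E := (mul_le_mul_of_nonneg_left b3 (by positivity)).trans b2
    have b5 : 0 ≤ Real.sqrt (4 * π * (1 + π) * κ' / κ) * E := by positivity
    nlinarith

end Pool.Agent.NH44.LS
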