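import Pool.Agent.NH44.LS.Defs
import Pool.Agent.NH44.LS.Sin
import Pool.Agent.NH44.LT.Scale
import Pool.Agent.Y291.DB.Count

/-!
# Geodesic discs of Liouville spheres
-/

set_option autoImplicit false

open MeasureTheory Real Filter Topology Set Function intervalIntegral
open Pool.Agent.Y291.DB (dl dl_pos dl_le dl_sq)

namespace Pool.Agent.NH44.LS

/-- the weight -/
noncomputable def WW (κ : ℝ) (p : ℝ × ℝ) : ℝ := |Real.sin (κ * p.1)| + |Real.sin p.2|

/-- the local scale -/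
noncomputable def hh (κ d : ℝ) (p : ℝ × ℝ) : ℝ := d / (WW κ p + Real.sqrt d)

section weight

variable {κ d : ℝ}

theorem WW_nonneg (p : ℝ × ℝ) : 0 ≤ WW κ p := add_nonneg (abs_nonneg _) (abs_nonneg _)

theorem WW_le (p : ℝ × ℝ) : WW κ p ≤ 2 := by
  have h1 := Real.abs_sin_le_one (κ * p.1)
  have h2 := Real.abs_sin_le_one p.2
  unfold WW
  linarith

theorem WW_lip (hκ : 0 < κ) (p q : ℝ × ℝ) :
    WW κ q ≤ WW κ p + (κ + 1) * (|q.1 - p.1| + |q.2 - p.2|) := by
  have h1 := sin_lip (κ * q.1) (κ * p.1)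
  have h2 := sin_lip q.2 p.2
  rw [← mul_sub, abs_mul, abs_of_pos hκ] at h1
  have h3 := abs_nonneg (q.1 - p.1)
  have h4 := abs_nonneg (q.2 - p.2)
  have h5 : 0 ≤ κ * |q.2 - p.2| := by positivity
  unfold WW
  nlinarith

theorem ww_pos (hd : 0 < d) (p : ℝ × ℝ) : 0 < WW κ p + Real.sqrt d := by
  have := WW_nonneg (κ := κ) p
  have := Real.sqrt_pos.2 hd
  linarith

theorem hh_pos (hd : 0 < d) (p : ℝ × ℝ) : 0 < hh κ d p := div_pos hd (ww_pos hd p)

theorem hh_mul (hd : 0 < d) (p : ℝ × ℝ) : hh κ d p * (WW κ p + Real.sqrt d) = d :=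
  div_mul_cancel₀ _ (ww_pos hd p).ne'

theorem hh_W (hd : 0 < d) (p : ℝ × ℝ) : hh κ d p * WW κ p ≤ d := by
  have h1 := hh_mul (κ := κ) hd p
  have h2 : 0 ≤ hh κ d p * Real.sqrt d := mul_nonneg (hh_pos hd p).le (Real.sqrt_nonneg _)
  rw [mul_add] at h1
  linarith

theorem hh_le (hd : 0 < d) (p : ℝ × ℝ) : hh κ d p ≤ Real.sqrt d := by
  unfold hh
  rw [div_le_iff₀ (ww_pos hd p)]
  have h1 := WW_nonneg (κ := κ) p
  have h2 := Real.mul_self_sqrt hd.le
  have h3 : 0 ≤ Real.sqrt d * WW κ p := mul_nonneg (Real.sqrt_nonneg _) h1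
  nlinarith

theorem hh_sq (hd : 0 < d) (p : ℝ × ℝ) : hh κ d p ^ 2 ≤ d := by
  have h1 := pow_le_pow_left₀ (hh_pos (κ := κ) hd p).le (hh_le hd p) 2
  rwa [Real.sq_sqrt hd.le] at h1

theorem hh_lower (hd : 0 < d) (hd1 : d ≤ 1) (p : ℝ × ℝ) : d / 3 ≤ hh κ d p := by
  unfold hh
  refine div_le_div_of_nonneg_left hd.le (ww_pos hd p) ?_
  have h1 := WW_le (κ := κ) p
  have h2 : Real.sqrt d ≤ 1 := Real.sqrt_le_one.2 hd1
  linarith

theorem hh_cmp1 (hκ : 0 < κ) (hd : 0 < d) {A : ℝ} (hA : 0 ≤ A) {p q : ℝ × ℝ}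
    (h : |q.1 - p.1| + |q.2 - p.2| ≤ A * hh κ d p) :
    hh κ d p ≤ (1 + (κ + 1) * A) * hh κ d q := by
  have h1 := WW_lip hκ p q
  have h2 := hh_le (κ := κ) hd p
  have h3 := WW_nonneg (κ := κ) p
  have hp := ww_pos (κ := κ) hd p
  have hq := ww_pos (κ := κ) hd q
  have h4 : WW κ q + Real.sqrt d ≤ (1 + (κ + 1) * A) * (WW κ p + Real.sqrt d) := by
    have h5 : (κ + 1) * (|q.1 - p.1| + |q.2 - p.2|) ≤ (κ + 1) * (A * (WW κ p + Real.sqrt d)) := by
      refine mul_le_mul_of_nonneg_left (h.trans ?_) (by linarith)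
      exact mul_le_mul_of_nonneg_left (by linarith) hA
    nlinarith
  unfold hh
  rw [mul_div_assoc', div_le_div_iff₀ hp hq]
  have := mul_le_mul_of_nonneg_left h4 hd.le
  linarith

theorem hh_cmp2 (hκ : 0 < κ) (hd : 0 < d) {A : ℝ} (hA : 0 ≤ A) {p q : ℝ × ℝ}
    (h : |q.1 - p.1| + |q.2 - p.2| ≤ A * hh κ d p) :
    hh κ d q ≤ (1 + (κ + 1) * A) * hh κ d p := by
  have h1 := WW_lip hκ q p
  rw [abs_sub_comm p.1, abs_sub_comm p.2] at h1
  have hp := ww_pos (κ := κ) hd p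
  have hq := ww_pos (κ := κ) hd q
  have h2 : hh κ d p ≤ WW κ q + Real.sqrt d :=
    (hh_le hd p).trans (by linarith [WW_nonneg (κ := κ) q])
  have h4 : WW κ p + Real.sqrt d ≤ (1 + (κ + 1) * A) * (WW κ q + Real.sqrt d) := by
    have h5 : (κ + 1) * (|q.1 - p.1| + |q.2 - p.2|) ≤ (κ + 1) * (A * (WW κ q + Real.sqrt d)) := by
      refine mul_le_mul_of_nonneg_left (h.trans ?_) (by linarith)
      exact mul_le_mul_of_nonneg_left h2 hA
    nlinarith
  have e1 : hh κ d q = d / (WW κ q + Real.sqrt d) := rfl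
  have e2 : hh κ d p = d / (WW κ p + Real.sqrt d) := rfl
  rw [e1, e2, mul_div_assoc', div_le_div_iff₀ hq hp]
  have := mul_le_mul_of_nonneg_left h4 hd.le
  linarith

end weight

theorem Same.refl (L : ℝ) (p : ℝ × ℝ) : Same L p p := ⟨0, 0, Or.inl (by simp)⟩

theorem Same.shift {L : ℝ} (k l : ℤ) {p q : ℝ × ℝ} (h : Same L p q) :
    Same L p (q.1 + k * L, q.2 + l * (2 * π)) := by
  obtain ⟨m, n, h | h⟩ := h
  · refine ⟨m + k, n + l, Or.inl ?_⟩
    rw [h]
    ext <;> (simp only; push_cast; ring)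
  · refine ⟨m + k, n + l, Or.inr ?_⟩
    rw [h]
    ext <;> (simp only; push_cast; ring)

theorem len_nonneg (ρ : ℝ × ℝ → ℝ) (γ : ℝ → ℝ × ℝ) : 0 ≤ len ρ γ :=
  intervalIntegral.integral_nonneg zero_le_one fun s _ => by positivity

theorem gdist_nonempty (ρ : ℝ × ℝ → ℝ) (L : ℝ) (p q : ℝ × ℝ) :
    {l : ℝ | ∃ γ : ℝ → ℝ × ℝ, ContDiff ℝ 1 γ ∧ γ 0 = p ∧ Same L q (γ 1) ∧ l = len ρ γ}.Nonempty := by
  refine ⟨_, fun s => (p.1 + s * (q.1 - p.1), p.2 + s * (q.2 - p.2)), by fun_prop, by simp, ?_, rfl⟩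
  simpa using Same.refl L q

section dens

variable {ρ : ℝ × ℝ → ℝ} {L κ m M : ℝ}

/-- Straight curves. -/
theorem gdist_seg (hκ : 0 < κ) (hM : 0 ≤ M) (hρc : Continuous ρ)
    (hi : ∀ p : ℝ × ℝ, ρ p ≤ M * (Real.sin (κ * p.1) ^ 2 + Real.sin p.2 ^ 2)) (p q : ℝ × ℝ) :
    gdist ρ L p q ≤ Real.sqrt M * (WW κ p + (κ + 1) * (|q.1 - p.1| + |q.2 - p.2|)) *
      (|q.1 - p.1| + |q.2 - p.2|) := by
  set a := |q.1 - p.1| + |q.2 - p.2| with ha
  have ha0 : 0 ≤ a := by positivity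
  set γ : ℝ → ℝ × ℝ := fun s => (p.1 + s * (q.1 - p.1), p.2 + s * (q.2 - p.2)) with hγ
  have hc : ContDiff ℝ 1 γ := by
    rw [hγ]
    fun_prop
  have hd : ∀ s, deriv γ s = (q.1 - p.1, q.2 - p.2) := by
    intro s
    have h1 : HasDerivAt (fun s : ℝ => p.1 + s * (q.1 - p.1)) (q.1 - p.1) s := by
      simpa using ((hasDerivAt_id s).mul_const (q.1 - p.1)).const_add p.1
    have h2 : HasDerivAt (fun s : ℝ => p.2 + s * (q.2 - p.2)) (q.2 - p.2) s := by
      simpa using ((hasDerivAt_id s).mul_const (q.2 - p.2)).const_add p.2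
    exact (h1.prodMk h2).deriv
  have hWp := WW_nonneg (κ := κ) p
  have hlen : len ρ γ ≤ Real.sqrt M * (WW κ p + (κ + 1) * a) * a := by
    have h1 : len ρ γ ≤ ∫ s in (0 : ℝ)..1, Real.sqrt M * (WW κ p + (κ + 1) * a) * a := by
      unfold len
      refine intervalIntegral.integral_mono_on zero_le_one ?_ ?_ ?_
      · refine Continuous.intervalIntegrable ?_ _ _
        simp only [hd]
        have : Continuous γ := hc.continuous
        fun_prop
      · exact continuous_const.intervalIntegrable _ _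
      · intro s hs
        rw [hd]
        have h3 : Real.sqrt ((q.1 - p.1) ^ 2 + (q.2 - p.2) ^ 2) ≤ a := by
          rw [ha, Real.sqrt_le_left (by positivity)]
          nlinarith [sq_abs (q.1 - p.1), sq_abs (q.2 - p.2), abs_nonneg (q.1 - p.1),
            abs_nonneg (q.2 - p.2), mul_nonneg (abs_nonneg (q.1 - p.1)) (abs_nonneg (q.2 - p.2))]
        have h4 : Real.sqrt (ρ (γ s)) ≤ Real.sqrt M * (WW κ p + (κ + 1) * a) := by
          have k1 := WW_lip hκ p (γ s)
          have k2 : |(γ s).1 - p.1| + |(γ s).2 - p.2| ≤ a := by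
            simp only [hγ, add_sub_cancel_left, abs_mul, abs_of_nonneg hs.1]
            rw [← mul_add, ← ha]
            nlinarith [hs.2]
          have k3 : WW κ (γ s) ≤ WW κ p + (κ + 1) * a :=
            k1.trans (add_le_add le_rfl (mul_le_mul_of_nonneg_left k2 (by linarith)))
          refine Real.sqrt_le_iff.2 ⟨by positivity, (hi (γ s)).trans ?_⟩
          rw [mul_pow, Real.sq_sqrt hM]
          refine mul_le_mul_of_nonneg_left ?_ hM
          have k4 := pow_le_pow_left₀ (WW_nonneg (κ := κ) (γ s)) k3 2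
          refine le_trans ?_ k4
          unfold WW
          have k5 : 0 ≤ |Real.sin (κ * (γ s).1)| * |Real.sin (γ s).2| := by positivity
          nlinarith [sq_abs (Real.sin (κ * (γ s).1)), sq_abs (Real.sin (γ s).2)]
        exact mul_le_mul h4 h3 (Real.sqrt_nonneg _) (by positivity)
    simpa using h1
  refine le_trans (csInf_le ⟨0, ?_⟩ ⟨γ, hc, ?_, ?_, rfl⟩) hlen
  · rintro _ ⟨γ', _, _, _, rfl⟩
    exact len_nonneg _ _
  · simp [hγ]
  · have : γ 1 = q := by simp [hγ]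
    rw [this]
    exact Same.refl L q

/-- A point in a disc has a representative with close coordinates. -/
theorem gdist_lt (hκ : 0 < κ) (hm : 0 < m) (hρc : Continuous ρ)
    (lo : ∀ p : ℝ × ℝ, m * (Real.sin (κ * p.1) ^ 2 + Real.sin p.2 ^ 2) ≤ ρ p) {p q : ℝ × ℝ}
    {r E : ℝ} (hr : 0 < r) (hE : E = r / Real.sqrt m) (hE1 : E < π / (2 * κ)) (hE2 : E < π / 2)
    (h : gdist ρ L p q < r) :
    ∃ q' : ℝ × ℝ, Same L q q' ∧ κ * |q'.1 - p.1| ^ 2 ≤ 2 * π * E ∧
      |q'.1 - p.1| * WW κ p ≤ (1 + π + (2 + Real.sqrt (4 * π * (1 + π) / κ))) * E ∧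
      |q'.2 - p.2| ^ 2 ≤ 2 * π * E ∧
      |q'.2 - p.2| * WW κ p ≤ (1 + π + (2 + Real.sqrt (4 * π * (1 + π) * κ))) * E := by
  obtain ⟨l, ⟨γ, hc, h0, h1, rfl⟩, hl⟩ := exists_lt_of_csInf_lt (gdist_nonempty ρ L p q) h
  have hs0 : 0 < Real.sqrt m := Real.sqrt_pos.2 hm
  have hE0 : 0 < E := by
    rw [hE]
    positivity
  have hdc : Continuous (deriv γ) := hc.continuous_deriv le_rfl
  have hγc : Continuous γ := hc.continuous
  have hdd : ∀ s, HasDerivAt γ (deriv γ s) s := fun s =>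
    ((hc.differentiable one_ne_zero) s).hasDerivAt
  have hd1 : ∀ s, HasDerivAt (fun s => (γ s).1) (deriv γ s).1 s := fun s =>
    ((ContinuousLinearMap.fst ℝ ℝ ℝ).hasFDerivAt (x := γ s)).comp_hasDerivAt s (hdd s)
  have hd2 : ∀ s, HasDerivAt (fun s => (γ s).2) (deriv γ s).2 s := fun s =>
    ((ContinuousLinearMap.snd ℝ ℝ ℝ).hasFDerivAt (x := γ s)).comp_hasDerivAt s (hdd s)
  have c1 : Continuous fun s => (deriv γ s).1 := hdc.fst
  have c2 : Continuous fun s => (deriv γ s).2 := hdc.snd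
  have key : ∀ w : ℝ → ℝ, Continuous w → (∀ s, 0 ≤ w s) → (∀ s, Real.sqrt m * w s ≤
      Real.sqrt (ρ (γ s)) * Real.sqrt ((deriv γ s).1 ^ 2 + (deriv γ s).2 ^ 2)) →
      ∀ t ∈ Icc (0 : ℝ) 1, ∫ s in (0 : ℝ)..t, w s ≤ E := by
    intro w hw hw0 hwb t ht
    have k1 : ∫ s in (0 : ℝ)..t, w s ≤ ∫ s in (0 : ℝ)..1, w s := by
      rw [← intervalIntegral.integral_add_adjacent_intervals (hw.intervalIntegrable 0 t)
        (hw.intervalIntegrable t 1)]
      have : 0 ≤ ∫ s in t..1, w s := intervalIntegral.integral_nonneg ht.2 fun s _ => hw0 s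
      linarith
    have k2 : Real.sqrt m * ∫ s in (0 : ℝ)..1, w s ≤ len ρ γ := by
      rw [← intervalIntegral.integral_const_mul]
      unfold len
      refine intervalIntegral.integral_mono_on zero_le_one ?_ ?_ ?_
      · exact (continuous_const.mul hw).intervalIntegrable _ _
      · refine Continuous.intervalIntegrable ?_ _ _
        fun_prop
      · intro s _
        exact hwb s
    rw [hE]
    rw [le_div_iff₀ hs0]
    nlinarith
  have hsin : ∀ s, Real.sqrt m * |Real.sin (κ * (γ s).1)| ≤ Real.sqrt (ρ (γ s)) ∧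
      Real.sqrt m * |Real.sin (1 * (γ s).2)| ≤ Real.sqrt (ρ (γ s)) := by
    intro s
    have k1 := lo (γ s)
    have k2 := sq_nonneg (Real.sin (κ * (γ s).1))
    have k3 := sq_nonneg (Real.sin (γ s).2)
    constructor
    · refine Real.le_sqrt_of_sq_le ?_
      rw [mul_pow, Real.sq_sqrt hm.le, sq_abs]
      nlinarith
    · refine Real.le_sqrt_of_sq_le ?_
      rw [mul_pow, Real.sq_sqrt hm.le, sq_abs, one_mul]
      nlinarith
  have hder : ∀ s, |(deriv γ s).1| ≤ Real.sqrt ((deriv γ s).1 ^ 2 + (deriv γ s).2 ^ 2) ∧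
      |(deriv γ s).2| ≤ Real.sqrt ((deriv γ s).1 ^ 2 + (deriv γ s).2 ^ 2) := by
    intro s
    constructor
    · rw [← Real.sqrt_sq_eq_abs]
      exact Real.sqrt_le_sqrt (by nlinarith [sq_nonneg (deriv γ s).2])
    · rw [← Real.sqrt_sq_eq_abs]
      exact Real.sqrt_le_sqrt (by nlinarith [sq_nonneg (deriv γ s).1])
  have comb : ∀ {a b A B : ℝ}, Real.sqrt m * a ≤ A → b ≤ B → 0 ≤ b → 0 ≤ A →
      Real.sqrt m * (a * b) ≤ A * B := by
    intro a b A B h1 h2 h3 h4
    calc Real.sqrt m * (a * b) = (Real.sqrt m * a) * b := by ring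
      _ ≤ A * b := mul_le_mul_of_nonneg_right h1 h3
      _ ≤ A * B := mul_le_mul_of_nonneg_left h2 h4
  have i11 := key (fun s => |Real.sin (κ * (γ s).1)| * |(deriv γ s).1|) (by fun_prop)
    (fun s => by positivity)
    (fun s => comb (hsin s).1 (hder s).1 (abs_nonneg _) (Real.sqrt_nonneg _))
  have i12 := key (fun s => |Real.sin (κ * (γ s).1)| * |(deriv γ s).2|) (by fun_prop)
    (fun s => by positivity)
    (fun s => comb (hsin s).1 (hder s).2 (abs_nonneg _) (Real.sqrt_nonneg _))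
  have i21 := key (fun s => |Real.sin (1 * (γ s).2)| * |(deriv γ s).1|) (by fun_prop)
    (fun s => by positivity)
    (fun s => comb (hsin s).2 (hder s).1 (abs_nonneg _) (Real.sqrt_nonneg _))
  have i22 := key (fun s => |Real.sin (1 * (γ s).2)| * |(deriv γ s).2|) (by fun_prop)
    (fun s => by positivity)
    (fun s => comb (hsin s).2 (hder s).2 (abs_nonneg _) (Real.sqrt_nonneg _))
  have r1 : (1 : ℝ) ∈ Icc (0 : ℝ) 1 := right_mem_Icc.2 zero_le_one
  have X := cross (κ := κ) (κ' := 1) hκ one_pos hE1 (by rw [mul_one]; exact hE2) hE0 hd1 c1 hd2 c2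
    i11 i22 (i21 1 r1)
  have Y := cross (κ := 1) (κ' := κ) one_pos hκ (by rw [mul_one]; exact hE2) hE1 hE0 hd2 c2 hd1 c1
    i22 i11 (i12 1 r1)
  simp only [h0, one_mul, mul_one, div_one] at X Y
  refine ⟨γ 1, h1, X.1, ?_, Y.1, ?_⟩
  · unfold WW
    have := X.2.1
    have := X.2.2
    nlinarith
  · unfold WW
    have := Y.2.1
    have := Y.2.2
    nlinarith

/-- representatives -/
theorem reduce (hL : 0 < L) (p q : ℝ × ℝ) : ∃ k l : ℤ, |q.1 + k * L - p.1| ≤ L ∧
    |q.2 + l * (2 * π) - p.2| ≤ 2 * π := by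
  have key : ∀ P : ℝ, 0 < P → ∀ a b : ℝ, ∃ k : ℤ, |a + k * P - b| ≤ P := by
    intro P hP a b
    refine ⟨⌊(b - a) / P⌋, ?_⟩
    have h1 := Int.floor_le ((b - a) / P)
    have h2 := Int.lt_floor_add_one ((b - a) / P)
    rw [le_div_iff₀ hP] at h1
    rw [div_lt_iff₀ hP] at h2
    rw [abs_le]
    constructor <;> linarith
  obtain ⟨k, hk⟩ := key L hL q.1 p.1
  obtain ⟨l, hl⟩ := key (2 * π) Real.two_pi_pos q.2 p.2
  exact ⟨k, l, hk, hl⟩

/-- The large discs. -/
theorem outer (hL : 0 < L) (hκ : 0 < κ) (hm : 0 < m) (hρc : Continuous ρ)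
    (lo : ∀ p : ℝ × ℝ, m * (Real.sin (κ * p.1) ^ 2 + Real.sin p.2 ^ 2) ≤ ρ p) {C : ℝ}
    (hC : 0 < C) : ∃ A : ℝ, 0 < A ∧ ∀ lam : ℝ, 0 < lam → ∀ p q : ℝ × ℝ,
      gdist ρ L p q < 2 * (C / Real.sqrt lam) →
      ∃ q' : ℝ × ℝ, Same L q q' ∧ |q'.1 - p.1| ≤ A * hh κ (dl lam) p ∧
        |q'.2 - p.2| ≤ A * hh κ (dl lam) p := by
  have hπ := Real.pi_pos
  have hsm : 0 < Real.sqrt m := Real.sqrt_pos.2 hm
  -- the threshold
  set E1 : ℝ := 6 * C / Real.sqrt m with hE1
  have hE10 : 0 < E1 := by positivity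
  obtain ⟨ε0, hε0, hε1, hε2, hε3⟩ : ∃ ε0 : ℝ, 0 < ε0 ∧ ε0 ≤ 1 / 4 ∧ E1 * ε0 < π / (2 * κ) ∧
      E1 * ε0 < π / 2 := by
    refine ⟨min (1 / 4) (min (π / (4 * κ * E1)) (π / (4 * E1))), by positivity, min_le_left _ _,
      ?_, ?_⟩
    · have h1 : min (1 / 4) (min (π / (4 * κ * E1)) (π / (4 * E1))) ≤ π / (4 * κ * E1) :=
        (min_le_right _ _).trans (min_le_left _ _)
      calc E1 * min (1 / 4) (min (π / (4 * κ * E1)) (π / (4 * E1)))
          ≤ E1 * (π / (4 * κ * E1)) := mul_le_mul_of_nonneg_left h1 hE10.le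
        _ = π / (4 * κ) := by field_simp
        _ < π / (2 * κ) := div_lt_div_of_pos_left hπ (by positivity) (by linarith)
    · have h1 : min (1 / 4) (min (π / (4 * κ * E1)) (π / (4 * E1))) ≤ π / (4 * E1) :=
        (min_le_right _ _).trans (min_le_right _ _)
      calc E1 * min (1 / 4) (min (π / (4 * κ * E1)) (π / (4 * E1)))
          ≤ E1 * (π / (4 * E1)) := mul_le_mul_of_nonneg_left h1 hE10.le
        _ = π / 4 := by field_simp
        _ < π / 2 := by linarith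
  set S1 : ℝ := 1 + π + (2 + Real.sqrt (4 * π * (1 + π) / κ)) with hS1
  set S2 : ℝ := 1 + π + (2 + Real.sqrt (4 * π * (1 + π) * κ)) with hS2
  have hS10 : 0 < S1 := by positivity
  have hS20 : 0 < S2 := by positivity
  set A : ℝ := S1 * E1 + S2 * E1 + Real.sqrt (2 * π * E1 / κ) + Real.sqrt (2 * π * E1) +
    (L + 2 * π) * 3 / ε0 with hA
  have hA0 : 0 < A := by positivity
  refine ⟨A, hA0, ?_⟩
  intro lam hlam p q h
  have hdl := dl_pos hlam
  set d := dl lam with hd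
  have hd1 : d ≤ 1 / 2 := dl_le hlam
  have hhp := hh_pos (κ := κ) hdl p
  have hw := ww_pos (κ := κ) hdl p
  have hmul := hh_mul (κ := κ) hdl p
  by_cases hcase : ε0 ≤ d
  · obtain ⟨k, l, h1, h2⟩ := reduce hL p q
    refine ⟨_, (Same.refl L q).shift k l, ?_, ?_⟩
    · refine h1.trans ?_
      have h3 := hh_lower (κ := κ) hdl (by linarith) p
      have h4 : (L + 2 * π) ≤ (L + 2 * π) * 3 / ε0 * (d / 3) := by
        rw [div_mul_div_comm, le_div_iff₀ (by positivity)]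
        nlinarith
      have h5 : (L + 2 * π) * 3 / ε0 * (d / 3) ≤ A * hh κ d p := by
        refine mul_le_mul ?_ h3 (by positivity) hA0.le
        rw [hA]
        have : 0 ≤ S1 * E1 + S2 * E1 + Real.sqrt (2 * π * E1 / κ) + Real.sqrt (2 * π * E1) := by
          positivity
        linarith
      linarith
    · refine h2.trans ?_
      have h3 := hh_lower (κ := κ) hdl (by linarith) p
      have h4 : (L + 2 * π) ≤ (L + 2 * π) * 3 / ε0 * (d / 3) := by
        rw [div_mul_div_comm, le_div_iff₀ (by positivity)]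
        nlinarith
      have h5 : (L + 2 * π) * 3 / ε0 * (d / 3) ≤ A * hh κ d p := by
        refine mul_le_mul ?_ h3 (by positivity) hA0.le
        rw [hA]
        have : 0 ≤ S1 * E1 + S2 * E1 + Real.sqrt (2 * π * E1 / κ) + Real.sqrt (2 * π * E1) := by
          positivity
        linarith
      linarith
  · push Not at hcase
    -- the eigenvalue is at least one
    have hrad : 2 * (C / Real.sqrt lam) ≤ 6 * C * d := by
      have hsq := dl_sq hlam
      rw [← hd] at hsq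
      have h1 : d < 1 / 4 := lt_of_lt_of_le hcase hε1
      have h2 : 1 ≤ lam := by
        by_contra hcon
        push Not at hcon
        have h3 : 1 / (1 + lam) > 1 / 2 :=
          one_div_lt_one_div_of_lt (by linarith) (by linarith)
        nlinarith
      have h3 : 1 / Real.sqrt lam ≤ 3 * d := by
        rw [div_le_iff₀ (Real.sqrt_pos.2 hlam)]
        have h4 : (1 : ℝ) ≤ 9 * d ^ 2 * lam := by
          have h5 : 4 * d ^ 2 * (1 + lam) = 1 := by
            rw [hsq]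
            field_simp
          nlinarith [sq_nonneg d]
        have h5 : (1 : ℝ) ^ 2 ≤ (3 * d * Real.sqrt lam) ^ 2 := by
          rw [mul_pow, mul_pow, Real.sq_sqrt hlam.le]
          linarith
        exact le_of_sq_le_sq h5 (by positivity)
      have h4 : 2 * (C / Real.sqrt lam) = 2 * C * (1 / Real.sqrt lam) := by ring
      rw [h4]
      nlinarith
    have hEd : E1 * d ≤ E1 * ε0 := mul_le_mul_of_nonneg_left hcase.le hE10.le
    obtain ⟨q', hq, g1, g2, g3, g4⟩ := gdist_lt (L := L) (E := E1 * d) (r := 6 * C * d) hκ hm hρc lo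
      (by positivity) (by rw [hE1]; ring) (by linarith) (by linarith) (h.trans_le hrad)
    refine ⟨q', hq, ?_, ?_⟩
    · have k1 : |q'.1 - p.1| * Real.sqrt d ≤ Real.sqrt (2 * π * E1 / κ) * d := by
        have k2 : (|q'.1 - p.1| * Real.sqrt d) ^ 2 ≤ (Real.sqrt (2 * π * E1 / κ) * d) ^ 2 := by
          rw [mul_pow, mul_pow, Real.sq_sqrt hdl.le, Real.sq_sqrt (by positivity)]
          have k3 : |q'.1 - p.1| ^ 2 ≤ 2 * π * E1 / κ * d := by
            rw [div_mul_eq_mul_div, le_div_iff₀ hκ]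
            linarith
          nlinarith
        exact (abs_le_of_sq_le_sq' k2 (by positivity)).2
      have k2 : |q'.1 - p.1| * (WW κ p + Real.sqrt d) ≤ A * d := by
        have k3 : A * d = S1 * E1 * d + Real.sqrt (2 * π * E1 / κ) * d + (S2 * E1 +
          Real.sqrt (2 * π * E1) + (L + 2 * π) * 3 / ε0) * d := by
          rw [hA]
          ring
        have k4 : 0 ≤ (S2 * E1 + Real.sqrt (2 * π * E1) + (L + 2 * π) * 3 / ε0) * d := by
          positivity
        rw [mul_add, k3]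
        nlinarith
      have k5 : A * d = A * hh κ d p * (WW κ p + Real.sqrt d) := by rw [mul_assoc, hmul]
      rw [k5] at k2
      exact le_of_mul_le_mul_right k2 hw
    · have k1 : |q'.2 - p.2| * Real.sqrt d ≤ Real.sqrt (2 * π * E1) * d := by
        have k2 : (|q'.2 - p.2| * Real.sqrt d) ^ 2 ≤ (Real.sqrt (2 * π * E1) * d) ^ 2 := by
          rw [mul_pow, mul_pow, Real.sq_sqrt hdl.le, Real.sq_sqrt (by positivity)]
          nlinarith
        exact (abs_le_of_sq_le_sq' k2 (by positivity)).2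
      have k2 : |q'.2 - p.2| * (WW κ p + Real.sqrt d) ≤ A * d := by
        have k3 : A * d = S2 * E1 * d + Real.sqrt (2 * π * E1) * d + (S1 * E1 +
          Real.sqrt (2 * π * E1 / κ) + (L + 2 * π) * 3 / ε0) * d := by
          rw [hA]
          ring
        have k4 : 0 ≤ (S1 * E1 + Real.sqrt (2 * π * E1 / κ) + (L + 2 * π) * 3 / ε0) * d := by
          positivity
        rw [mul_add, k3]
        nlinarith
      have k5 : A * d = A * hh κ d p * (WW κ p + Real.sqrt d) := by rw [mul_assoc, hmul]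
      rw [k5] at k2
      exact le_of_mul_le_mul_right k2 hw

/-- The small squares lie in the discs. -/
theorem inner (hκ : 0 < κ) (hM : 0 < M) (hρc : Continuous ρ)
    (hi : ∀ p : ℝ × ℝ, ρ p ≤ M * (Real.sin (κ * p.1) ^ 2 + Real.sin p.2 ^ 2)) {C β : ℝ}
    (hC : 0 < C) (hβ : 0 < β) (hβ1 : β ≤ 1) (hβC : β * (Real.sqrt M * (κ + 2)) ≤ C) {lam : ℝ}
    (hlam : 0 < lam) {p q : ℝ × ℝ} (h : |q.1 - p.1| + |q.2 - p.2| ≤ β * hh κ (dl lam) p) :
    q ∈ disc ρ L p (C / Real.sqrt lam) := by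
  have hdl := dl_pos hlam
  set d := dl lam with hd
  have hhp := hh_pos (κ := κ) hdl p
  have h1 := hh_W (κ := κ) hdl p
  have h2 := hh_sq (κ := κ) hdl p
  have hWp := WW_nonneg (κ := κ) p
  have hsM := Real.sqrt_nonneg M
  show gdist ρ L p q < C / Real.sqrt lam
  have h3 : gdist ρ L p q ≤ C * d := by
    refine (gdist_seg (L := L) hκ hM.le hρc hi p q).trans ?_
    have h4 : (|q.1 - p.1| + |q.2 - p.2|) * (WW κ p + (κ + 1) * (|q.1 - p.1| + |q.2 - p.2|)) ≤
        (β * hh κ d p) * (WW κ p + (κ + 1) * (β * hh κ d p)) := by gcongr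
    have h5 : (β * hh κ d p) * (WW κ p + (κ + 1) * (β * hh κ d p)) ≤ β * ((κ + 2) * d) := by
      have h6 : (β * hh κ d p) * (WW κ p + (κ + 1) * (β * hh κ d p)) =
        β * (hh κ d p * WW κ p + (κ + 1) * β * hh κ d p ^ 2) := by ring
      rw [h6]
      refine mul_le_mul_of_nonneg_left ?_ hβ.le
      have h7 : (κ + 1) * β * hh κ d p ^ 2 ≤ (κ + 1) * 1 * d := by gcongr
      nlinarith
    calc Real.sqrt M * (WW κ p + (κ + 1) * (|q.1 - p.1| + |q.2 - p.2|)) *
          (|q.1 - p.1| + |q.2 - p.2|)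
        = Real.sqrt M * ((|q.1 - p.1| + |q.2 - p.2|) *
          (WW κ p + (κ + 1) * (|q.1 - p.1| + |q.2 - p.2|))) := by ring
      _ ≤ Real.sqrt M * (β * ((κ + 2) * d)) := mul_le_mul_of_nonneg_left (h4.trans h5) hsM
      _ = β * (Real.sqrt M * (κ + 2)) * d := by ring
      _ ≤ C * d := mul_le_mul_of_nonneg_right hβC hdl.le
  refine h3.trans_lt ?_
  have h4 : d < 1 / Real.sqrt lam := by
    rw [hd]
    unfold dl
    refine one_div_lt_one_div_of_lt (Real.sqrt_pos.2 hlam) ?_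
    have h5 : Real.sqrt lam < Real.sqrt (1 + lam) := Real.sqrt_lt_sqrt hlam.le (by linarith)
    have h6 := Real.sqrt_nonneg (1 + lam)
    linarith
  calc C * d < C * (1 / Real.sqrt lam) := mul_lt_mul_of_pos_left h4 hC
    _ = C / Real.sqrt lam := by ring

/-- Shift of the first point. -/
theorem gdist_shift_left (hp : ∀ k l : ℤ, ∀ p : ℝ × ℝ, ρ (p.1 + k * L, p.2 + l * (2 * π)) = ρ p)
    (p q : ℝ × ℝ) (k l : ℤ) :
    gdist ρ L (p.1 + k * L, p.2 + l * (2 * π)) q = gdist ρ L p q := by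
  have key : ∀ (p : ℝ × ℝ) (k l : ℤ) (r : ℝ), (∃ γ : ℝ → ℝ × ℝ, ContDiff ℝ 1 γ ∧ γ 0 = p ∧
      Same L q (γ 1) ∧ r = len ρ γ) →
      (∃ γ : ℝ → ℝ × ℝ, ContDiff ℝ 1 γ ∧ γ 0 = (p.1 + k * L, p.2 + l * (2 * π)) ∧
      Same L q (γ 1) ∧ r = len ρ γ) := by
    rintro p k l r ⟨γ, h1, h2, h3, h4⟩
    refine ⟨fun s => ((γ s).1 + k * L, (γ s).2 + l * (2 * π)), by fun_prop,
      by simp only [h2], h3.shift k l, ?_⟩
    rw [h4]
    unfold len
    refine intervalIntegral.integral_congr fun s _ => ?_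
    have hd : deriv (fun s => ((γ s).1 + k * L, (γ s).2 + l * (2 * π))) s = deriv γ s := by
      have e1 : (fun s => ((γ s).1 + k * L, (γ s).2 + l * (2 * π))) =
          fun s => γ s + (k * L, l * (2 * π)) := by
        funext s
        ext
        · rfl
        · rfl
      rw [e1, deriv_add_const]
    simp only [hd, hp]
  unfold gdist
  congr 1
  ext r
  constructor
  · intro h
    obtain ⟨γ, h1, h2, h3, h4⟩ := key _ (-k) (-l) r h
    refine ⟨γ, h1, ?_, h3, h4⟩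
    rw [h2]
    ext <;> (simp only; push_cast; ring)
  · exact key p k l r

end dens

end Pool.Agent.NH44.LS
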