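import Pool.Agent.NH44.LS.Disc
import Pool.Agent.NH44.SR.Main

/-!
# The average of the doubling indices on Liouville spheres
-/

set_option autoImplicit false

open MeasureTheory Real Filter Topology Set Function
open Pool.Agent.Y291.DB (dl dl_pos dl_le dl_sq)
open Pool.Agent.R220.LV (W mem_of_eigen)
open scoped ENNReal

namespace Pool.Agent.NH44.LS

/-- the zeros of a periodic function -/
theorem zeros_countable {u : ℝ → ℝ} {P B : ℝ} (hP : 0 < P) (per : ∀ x, u (x + P) = u x)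
    (h : ∀ Z : Finset ℝ, (∀ z ∈ Z, z ∈ Ico 0 P ∧ u z = 0) → (Z.card : ℝ) ≤ B) :
    {x : ℝ | u x = 0}.Countable := by
  have h2 : {b : ℝ | u b = 0} ⊆ ⋃ n : ℕ, {y | |y| ≤ n * P ∧ u y = 0} := by
    intro b hb
    obtain ⟨n, hn⟩ := exists_nat_ge (|b| / P)
    rw [div_le_iff₀ hP] at hn
    exact mem_iUnion.2 ⟨n, hn, hb⟩
  refine (countable_iUnion fun n => Finite.countable ?_).mono h2
  exact LT.finite_of_bound fun Z hZ => SR.per_count hP per h (D := n) le_rfl hZ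

theorem reduce0 {P : ℝ} (hP : 0 < P) (x : ℝ) : ∃ k : ℤ, x + k * P ∈ Ico 0 P := by
  refine ⟨-⌊x / P⌋, ?_⟩
  have h1 := Int.floor_le (x / P)
  have h2 := Int.lt_floor_add_one (x / P)
  rw [le_div_iff₀ hP] at h1
  rw [div_lt_iff₀ hP] at h2
  push_cast
  constructor <;> linarith

theorem disc_shift {ρ : ℝ × ℝ → ℝ} {L : ℝ}
    (hp : ∀ k l : ℤ, ∀ p : ℝ × ℝ, ρ (p.1 + k * L, p.2 + l * (2 * π)) = ρ p)
    (p : ℝ × ℝ) (k l : ℤ) (r : ℝ) :
    disc ρ L (p.1 + k * L, p.2 + l * (2 * π)) r = disc ρ L p r := by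
  unfold disc
  simp only [gdist_shift_left hp]

theorem doubling_shift {ρ : ℝ × ℝ → ℝ} {L : ℝ}
    (hp : ∀ k l : ℤ, ∀ p : ℝ × ℝ, ρ (p.1 + k * L, p.2 + l * (2 * π)) = ρ p)
    (φ : ℝ × ℝ → ℝ) (p : ℝ × ℝ) (k l : ℤ) (r : ℝ) :
    doubling ρ L φ (p.1 + k * L, p.2 + l * (2 * π)) r = doubling ρ L φ p r := by
  unfold doubling
  simp only [disc_shift hp]

open Classical in
/-- The result. -/
theorem main {f g : ℝ → ℝ} {L m M : ℝ} (hf : Continuous f) (hg : Continuous g) (hL : 0 < L)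
    (hfL : ∀ x, f (x + L) = f x) (hgp : ∀ y, g (y + 2 * π) = g y) (hm : 0 < m)
    (hf1 : ∀ x, m * Real.sin (2 * π / L * x) ^ 2 ≤ f x ∧ f x ≤ M * Real.sin (2 * π / L * x) ^ 2)
    (hg1 : ∀ y, m * Real.sin y ^ 2 ≤ g y ∧ g y ≤ M * Real.sin y ^ 2)
    {C C₁ C₂ : ℝ} (hC : 0 < C) (hC1 : 0 < C₁) (hC2 : 0 < C₂) :
    ∃ a : ℝ, 0 < a ∧ ∀ (lam : ℝ) (φ : ℝ × ℝ → ℝ), Eigen (fun p => f p.1 + g p.2) L lam φ →
      ∀ (ι : Type) [Fintype ι] (c : ι → ℝ × ℝ),
        Admissible (fun p => f p.1 + g p.2) L lam φ C C₁ C₂ c →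
        ∑ i, doubling (fun p => f p.1 + g p.2) L φ (c i) (C / Real.sqrt lam) ≤
          a * Fintype.card ι := by
  have hπ := Real.pi_pos
  have h2π : (0 : ℝ) < 2 * π := Real.two_pi_pos
  set κ : ℝ := 2 * π / L with hκd
  have hκ : 0 < κ := by positivity
  have hρc : Continuous fun p : ℝ × ℝ => f p.1 + g p.2 :=
    (hf.comp continuous_fst).add (hg.comp continuous_snd)
  have hfper : Function.Periodic f L := hfL
  have hgper : Function.Periodic g (2 * π) := hgp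
  have hρs : ∀ k l : ℤ, ∀ p : ℝ × ℝ, (fun p : ℝ × ℝ => f p.1 + g p.2)
      (p.1 + k * L, p.2 + l * (2 * π)) = (fun p : ℝ × ℝ => f p.1 + g p.2) p := by
    intro k l p
    show f (p.1 + k * L) + g (p.2 + l * (2 * π)) = f p.1 + g p.2
    rw [hfper.int_mul k p.1, hgper.int_mul l p.2]
  have hM : 0 < M := by
    have h1 := (hg1 (π / 2)).1.trans (hg1 (π / 2)).2
    rw [Real.sin_pi_div_two] at h1
    linarith
  have hf0 : ∀ x, 0 ≤ f x := fun x => le_trans (by positivity) (hf1 x).1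
  have hg0 : ∀ x, 0 ≤ g x := fun x => le_trans (by positivity) (hg1 x).1
  have lo : ∀ p : ℝ × ℝ, m * (Real.sin (κ * p.1) ^ 2 + Real.sin p.2 ^ 2) ≤ f p.1 + g p.2 :=
    fun p => by
      have := (hf1 p.1).1
      have := (hg1 p.2).1
      linarith
  have hi : ∀ p : ℝ × ℝ, f p.1 + g p.2 ≤ M * (Real.sin (κ * p.1) ^ 2 + Real.sin p.2 ^ 2) :=
    fun p => by
      have := (hf1 p.1).2
      have := (hg1 p.2).2
      linarith
  obtain ⟨F, hF0, hF⟩ := LT.per_bound hf hL hfL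
  obtain ⟨G, hG0, hG⟩ := LT.per_bound hg h2π hgp
  -- parameters
  have hsMκ : 0 < Real.sqrt M * (κ + 2) := by
    have := Real.sqrt_pos.2 hM
    positivity
  obtain ⟨β, hβ, hβ1, hβC⟩ : ∃ β : ℝ, 0 < β ∧ β ≤ 1 ∧ β * (Real.sqrt M * (κ + 2)) ≤ C := by
    refine ⟨min 1 (C / (Real.sqrt M * (κ + 2))), by positivity, min_le_left _ _, ?_⟩
    calc min 1 (C / (Real.sqrt M * (κ + 2))) * (Real.sqrt M * (κ + 2)) ≤
        C / (Real.sqrt M * (κ + 2)) * (Real.sqrt M * (κ + 2)) :=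
          mul_le_mul_of_nonneg_right (min_le_right _ _) hsMκ.le
      _ = C := div_mul_cancel₀ _ hsMκ.ne'
  obtain ⟨β2, N, hβ2, hβ21, H⟩ := disc_bound hf hg hL hκ hm hM hf0 hg0 (fun x => (hf1 x).2)
    (fun y => (hg1 y).2) lo hC hβ hβ1 hβC
  set D : ℝ := N + 4 with hD
  have hD0 : 0 < D := by positivity
  set T1 : ℝ := D * β2 with hT1
  have hT10 : 0 < T1 := by positivity
  set Θ : ℝ := T1 + L + 2 * π with hΘ
  have hΘ0 : 0 < Θ := by positivity
  obtain ⟨Dm, hDm⟩ := exists_nat_ge (2 * T1 * (1 + (κ + 1) * (2 * T1)) ^ 2 / β)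
  rw [div_le_iff₀ hβ] at hDm
  set W0 : ℝ := (2 * Dm + 1) ^ 2 * C₁ with hW0
  have hW00 : 0 < W0 := by positivity
  obtain ⟨Kp, hKp⟩ := exists_nat_ge (Θ / (2 * π))
  rw [div_le_iff₀ (by positivity)] at hKp
  obtain ⟨Kq, hKq⟩ := exists_nat_ge (Θ / L)
  rw [div_le_iff₀ hL] at hKq
  set W1 : ℝ := W0 * (6 / β2) with hW1
  have hW10 : 0 < W1 := by positivity
  set s0 : ℝ := Real.sqrt (2 * (F + G)) with hs0
  have hs00 : 0 ≤ s0 := Real.sqrt_nonneg _
  set K1 : ℝ := (2 * Kp + 1) * (2 * π * s0) * (2 * Θ * W1) with hK1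
  set K2 : ℝ := (2 * Kq + 1) * (L * s0) * (2 * Θ * W1) with hK2
  have hK10 : 0 ≤ K1 := by positivity
  have hK20 : 0 ≤ K2 := by positivity
  have hlog2 : 0 < Real.log 2 := Real.log_pos one_lt_two
  refine ⟨N * 20000 / Real.log 2 * ((2 * K1 + 2 * K2) * (1 + C₂) + 1) + 1, by positivity, ?_⟩
  intro lam φ hφ ι _ c hc
  have hlam := hφ.pos
  have hdl := dl_pos hlam
  -- representatives of the centers
  choose kk hkk using fun i => reduce0 hL (c i).1
  choose ll hll using fun i => reduce0 h2π (c i).2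
  set s : ι → ℝ := fun i => (c i).1 + kk i * L with hs
  set t : ι → ℝ := fun i => (c i).2 + ll i * (2 * π) with ht
  have hgd : ∀ i, disc (fun p => f p.1 + g p.2) L (s i, t i) (C / Real.sqrt lam) =
      disc (fun p => f p.1 + g p.2) L (c i) (C / Real.sqrt lam) :=
    fun i => disc_shift hρs (c i) (kk i) (ll i) _
  have hdbl : ∀ i, doubling (fun p => f p.1 + g p.2) L φ (c i) (C / Real.sqrt lam) =
      doubling (fun p => f p.1 + g p.2) L φ (s i, t i) (C / Real.sqrt lam) :=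
    fun i => (doubling_shift hρs φ (c i) (kk i) (ll i) _).symm
  have hmult : ∀ q : ℝ × ℝ, ({i | q ∈ disc (fun p => f p.1 + g p.2) L (s i, t i)
      (C / Real.sqrt lam)}.ncard : ℝ) ≤ C₁ := by
    intro q
    have h1 := hc.mult q
    simp only [hgd]
    exact h1
  set δ : ι → ℝ := fun i => β2 * hh κ (dl lam) (s i, t i) with hδ
  have hδ0 : ∀ i, 0 < δ i := fun i => mul_pos hβ2 (hh_pos hdl _)
  have hTδ : ∀ i, D * δ i ≤ T1 := by
    intro i
    have h1 := hh_le (κ := κ) hdl (s i, t i)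
    have h2 : Real.sqrt (dl lam) ≤ 1 := Real.sqrt_le_one.2 (by linarith [dl_le hlam])
    have h3 : D * δ i = T1 * hh κ (dl lam) (s i, t i) := by
      rw [hδ, hT1]
      ring
    rw [h3]
    nlinarith
  have hDδ : ∀ i, D * δ i = T1 * hh κ (dl lam) (s i, t i) := by
    intro i
    rw [hδ, hT1]
    ring
  set d := dl lam with hd
  set r := Real.sqrt (1 + lam) with hr
  have hdinv : 1 / d = 2 * r := by
    rw [hd, hr]
    unfold dl
    field_simp
  have hr1 : 1 ≤ r := Real.one_le_sqrt.2 (by linarith)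
  have hr2 : r * r = 1 + lam := Real.mul_self_sqrt (by linarith)
  have hrl : Real.sqrt lam ≤ r := Real.sqrt_le_sqrt (by linarith)
  -- the zeros on the lines
  have hW := mem_of_eigen hf hg hφ.to
  obtain ⟨hz1, hz2⟩ := LT.zeros_lines hf hg hL hlam hfL hgp hF hG hW
  have hsl : Real.sqrt (lam * (2 * (F + G))) = Real.sqrt lam * s0 := by
    rw [hs0, Real.sqrt_mul hlam.le]
  rw [hsl] at hz1 hz2
  have perx : ∀ x y, φ (x + L, y) = φ (x, y) := fun x y => by
    have := hφ.to.perx (x, y)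
    simpa using this
  have pery : ∀ x y, φ (x, y + 2 * π) = φ (x, y) := fun x y => hφ.to.pery (x, y)
  set z1 : ℝ := (2 * Kp + 1) * (2 * π * (Real.sqrt lam * s0)) with hz1d
  set z2 : ℝ := (2 * Kq + 1) * (L * (Real.sqrt lam * s0)) with hz2d
  have hz10 : 0 ≤ z1 := by positivity
  have hz20 : 0 ≤ z2 := by positivity
  have hc1 : ∀ a, (∃ y, φ (a, y) ≠ 0) → ∀ Z : Finset ℝ, (∀ z ∈ Z, z ∈ {y | |y| ≤ Θ ∧
      φ (a, y) = 0}) → (Z.card : ℝ) ≤ z1 := fun a ha Z hZ =>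
    SR.per_count h2π (pery a) (hz1 a ha) hKp hZ
  have hf1' : ∀ a, (∃ y, φ (a, y) ≠ 0) → {y | |y| ≤ Θ ∧ φ (a, y) = 0}.Finite := fun a ha =>
    LT.finite_of_bound (hc1 a ha)
  have hc2 : ∀ b, (∃ x, φ (x, b) ≠ 0) → ∀ Z : Finset ℝ, (∀ z ∈ Z, z ∈ {x | |x| ≤ Θ ∧
      φ (x, b) = 0}) → (Z.card : ℝ) ≤ z2 := fun b hb Z hZ =>
    SR.per_count (u := fun x => φ (x, b)) hL (fun x => perx x b) (hz2 b hb) hKq hZ
  have hf2' : ∀ b, (∃ x, φ (x, b) ≠ 0) → {x | |x| ≤ Θ ∧ φ (x, b) = 0}.Finite := fun b hb =>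
    LT.finite_of_bound (hc2 b hb)
  set V1 : ℝ → Finset ℝ := fun a => if h : ∃ y, φ (a, y) ≠ 0 then (hf1' a h).toFinset else ∅
    with hV1
  set V2 : ℝ → Finset ℝ := fun b => if h : ∃ x, φ (x, b) ≠ 0 then (hf2' b h).toFinset else ∅
    with hV2
  have hV1c : ∀ a, ((V1 a).card : ℝ≥0∞) ≤ ENNReal.ofReal z1 := by
    intro a
    rw [← ENNReal.ofReal_natCast]
    refine ENNReal.ofReal_le_ofReal ?_
    by_cases h : ∃ y, φ (a, y) ≠ 0
    · rw [hV1]
      simp only [dif_pos h]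
      exact hc1 a h _ fun z hz => (hf1' a h).mem_toFinset.1 hz
    · rw [hV1]
      simp only [dif_neg h]
      simpa using hz10
  have hV2c : ∀ b, ((V2 b).card : ℝ≥0∞) ≤ ENNReal.ofReal z2 := by
    intro b
    rw [← ENNReal.ofReal_natCast]
    refine ENNReal.ofReal_le_ofReal ?_
    by_cases h : ∃ x, φ (x, b) ≠ 0
    · rw [hV2]
      simp only [dif_pos h]
      exact hc2 b h _ fun z hz => (hf2' b h).mem_toFinset.1 hz
    · rw [hV2]
      simp only [dif_neg h]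
      simpa using hz20
  -- almost all lines are good
  obtain ⟨⟨x1, y1⟩, hne⟩ := hφ.ne
  have hg1' : ∀ᵐ a, ∃ y, φ (a, y) ≠ 0 := by
    have h1 : {a : ℝ | φ (a, y1) = 0}.Countable :=
      zeros_countable (u := fun a => φ (a, y1)) hL (fun x => perx x y1) (hz2 y1 ⟨x1, hne⟩)
    filter_upwards [h1.ae_notMem volume] with a ha
    exact ⟨y1, ha⟩
  have hg2' : ∀ᵐ b, ∃ x, φ (x, b) ≠ 0 := by
    have h1 : {b : ℝ | φ (x1, b) = 0}.Countable :=
      zeros_countable (u := fun b => φ (x1, b)) h2π (fun y => pery x1 y) (hz1 x1 ⟨y1, hne⟩)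
    filter_upwards [h1.ae_notMem volume] with b hb
    exact ⟨x1, hb⟩
  -- the weights
  have hδinv : ∀ i, 1 / δ i ≤ 6 / β2 * r := by
    intro i
    have h1 := hh_lower (κ := κ) hdl (by linarith [dl_le hlam]) (s i, t i)
    have h2 : β2 * (d / 3) ≤ δ i := mul_le_mul_of_nonneg_left h1 hβ2.le
    have h3 : 6 / β2 * r = 1 / (β2 * (d / 3)) := by
      have e0 : 6 / β2 * r = 3 / β2 * (2 * r) := by ring
      rw [e0, ← hdinv]
      field_simp
    rw [h3]
    exact one_div_le_one_div_of_le (by positivity) h2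
  have hw0 : ∀ x y : ℝ, ∑ i, (if |x - s i| ≤ D * δ i ∧ |y - t i| ≤ D * δ i then
      ENNReal.ofReal (1 / δ i) else 0) ≤ ENNReal.ofReal (W1 * r) := by
    intro x y
    have hcard := mult_count (L := L) (κ := κ) (ρ := fun p => f p.1 + g p.2) (A := T1) (D := Dm)
      (c := fun i => (s i, t i)) hκ hlam hβ hC1
      (fun p q h => inner (L := L) hκ hM hρc hi hC hβ hβ1 hβC hlam h) hmult hT10.le hDm (x, y)
    calc ∑ i, (if |x - s i| ≤ D * δ i ∧ |y - t i| ≤ D * δ i then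
          ENNReal.ofReal (1 / δ i) else 0)
        ≤ ∑ i, (if |x - s i| ≤ T1 * hh κ d (s i, t i) ∧ |y - t i| ≤ T1 * hh κ d (s i, t i) then
          ENNReal.ofReal (6 / β2 * r) else 0) := by
          refine Finset.sum_le_sum fun i _ => ?_
          rw [hDδ]
          split_ifs
          · exact ENNReal.ofReal_le_ofReal (hδinv i)
          · exact le_rfl
      _ = ((Finset.univ.filter fun i => |x - s i| ≤ T1 * hh κ d (s i, t i) ∧
          |y - t i| ≤ T1 * hh κ d (s i, t i)).card : ℝ≥0∞) * ENNReal.ofReal (6 / β2 * r) := by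
          rw [← Finset.sum_filter, Finset.sum_const, nsmul_eq_mul]
      _ ≤ ENNReal.ofReal W0 * ENNReal.ofReal (6 / β2 * r) := by
          refine mul_le_mul_left ?_ _
          rw [← ENNReal.ofReal_natCast]
          exact ENNReal.ofReal_le_ofReal hcard
      _ = ENNReal.ofReal (W1 * r) := by
          rw [← ENNReal.ofReal_mul hW00.le]
          congr 1
          rw [hW1]
          ring
  have hw1 : ∀ x y : ℝ, ∑ i, (if |x - s i| ≤ D * δ i ∧ |y - t i| ≤ D * δ i then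
      ENNReal.ofReal (1 / δ i) else 0) ≤
        (Icc (-Θ) Θ).indicator (fun _ => ENNReal.ofReal (W1 * r)) x := by
    intro x y
    by_cases hx : x ∈ Icc (-Θ) Θ
    · rw [indicator_of_mem hx]
      exact hw0 x y
    · rw [indicator_of_notMem hx]
      refine le_of_eq (Finset.sum_eq_zero fun i _ => ?_)
      rw [if_neg]
      rintro ⟨h1, -⟩
      apply hx
      have h2 := hkk i
      have h3 := hTδ i
      rw [abs_le] at h1
      have e1 : s i = (c i).1 + kk i * L := rfl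
      rw [← e1] at h2
      exact ⟨by linarith [h2.1, h1.1], by linarith [h2.2, h1.2]⟩
  have hw2 : ∀ y x : ℝ, ∑ i, (if |y - t i| ≤ D * δ i ∧ |x - s i| ≤ D * δ i then
      ENNReal.ofReal (1 / δ i) else 0) ≤
        (Icc (-Θ) Θ).indicator (fun _ => ENNReal.ofReal (W1 * r)) y := by
    intro y x
    by_cases hy : y ∈ Icc (-Θ) Θ
    · rw [indicator_of_mem hy]
      refine le_trans (le_of_eq ?_) (hw0 x y)
      refine Finset.sum_congr rfl fun i _ => ?_
      simp only [and_comm]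
    · rw [indicator_of_notMem hy]
      refine le_of_eq (Finset.sum_eq_zero fun i _ => ?_)
      rw [if_neg]
      rintro ⟨h1, -⟩
      apply hy
      have h2 := hll i
      have h3 := hTδ i
      rw [abs_le] at h1
      have e1 : t i = (c i).2 + ll i * (2 * π) := rfl
      rw [← e1] at h2
      exact ⟨by linarith [h2.1, h1.1], by linarith [h2.2, h1.2]⟩
  -- the two sums
  have hind : ∀ z : ℝ, 0 ≤ z → ∫⁻ y, ENNReal.ofReal z * (Icc (-Θ) Θ).indicator
      (fun _ => ENNReal.ofReal (W1 * r)) y ≤ ENNReal.ofReal (z * (2 * Θ * (W1 * r))) := by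
    intro z hz
    rw [lintegral_const_mul' _ _ ENNReal.ofReal_ne_top, lintegral_indicator measurableSet_Icc,
      setLIntegral_const, Real.volume_Icc, ← ENNReal.ofReal_mul (by positivity),
      ← ENNReal.ofReal_mul hz]
    refine ENNReal.ofReal_le_ofReal (le_of_eq ?_)
    ring
  have htot1 := SR.total (ι := ι) s t δ D V1 (ENNReal.ofReal z1) _ hV1c hw1
  obtain ⟨hX1, hn1⟩ := SR.sum_floor (by positivity) (htot1.trans (hind z1 hz10))
  have htot2 := SR.total (ι := ι) t s δ D V2 (ENNReal.ofReal z2) _ hV2c hw2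
  obtain ⟨hX2, hn2⟩ := SR.sum_floor (by positivity) (htot2.trans (hind z2 hz20))
  set n1 : ι → ℕ := fun i => ⌊(ENNReal.ofReal (1 / δ i) * ∫⁻ a in {a | |a - s i| ≤ D * δ i},
    (((V1 a).filter fun z => |z - t i| ≤ D * δ i).card : ℝ≥0∞)).toReal⌋₊ with hn1d
  set n2 : ι → ℕ := fun i => ⌊(ENNReal.ofReal (1 / δ i) * ∫⁻ a in {a | |a - t i| ≤ D * δ i},
    (((V2 a).filter fun z => |z - s i| ≤ D * δ i).card : ℝ≥0∞)).toReal⌋₊ with hn2d
  -- the doubling index of a disc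
  have hdisc : ∀ i, doubling (fun p => f p.1 + g p.2) L φ (c i) (C / Real.sqrt lam) ≤
      N * 20000 / Real.log 2 * (2 * (n1 i : ℝ) + 2 * (n2 i : ℝ) + 1) := by
    intro i
    rw [hdbl i]
    refine (H lam φ hφ (s i, t i) (n1 i) (n2 i) ?_ ?_).trans (le_of_eq ?_)
    · intro x hx1 hx2
      obtain ⟨a, ha, hga, hcard⟩ := SR.use_pick (V := V1) hg1' (t₀ := t i) (hδ0 i) rfl (hX1 i)
        hx1 hx2
      refine ⟨a, ha, _, hcard, fun y hy h0 => ?_⟩
      refine Finset.mem_filter.2 ⟨?_, hy⟩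
      rw [hV1]
      simp only [dif_pos hga]
      rw [(hf1' a hga).mem_toFinset]
      refine ⟨?_, h0⟩
      have h2 := hll i
      have h3 := hTδ i
      have e1 : t i = (c i).2 + ll i * (2 * π) := rfl
      rw [← e1] at h2
      have hy' : |y - t i| ≤ D * δ i := hy
      rw [abs_le] at hy' ⊢
      exact ⟨by linarith [h2.1, hy'.1], by linarith [h2.2, hy'.2]⟩
    · intro x hx1 hx2
      obtain ⟨a, ha, hga, hcard⟩ := SR.use_pick (V := V2) hg2' (t₀ := s i) (hδ0 i) rfl (hX2 i)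
        hx1 hx2
      refine ⟨a, ha, _, hcard, fun y hy h0 => ?_⟩
      refine Finset.mem_filter.2 ⟨?_, hy⟩
      rw [hV2]
      simp only [dif_pos hga]
      rw [(hf2' a hga).mem_toFinset]
      refine ⟨?_, h0⟩
      have h2 := hkk i
      have h3 := hTδ i
      have e1 : s i = (c i).1 + kk i * L := rfl
      rw [← e1] at h2
      have hy' : |y - s i| ≤ D * δ i := hy
      rw [abs_le] at hy' ⊢
      exact ⟨by linarith [h2.1, hy'.1], by linarith [h2.2, hy'.2]⟩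
    · ring
  -- conclusion
  have hcard1 : (1 : ℝ) ≤ Fintype.card ι := by
    have h1 : (0 : ℝ) < Fintype.card ι := lt_of_lt_of_le (by positivity) hc.lower
    have h2 : 0 < Fintype.card ι := by exact_mod_cast h1
    exact_mod_cast h2
  have hcard2 : lam ≤ C₂ * Fintype.card ι := by
    have := hc.lower
    rw [inv_mul_le_iff₀ hC2] at this
    exact this
  have hcard3 : 1 + lam ≤ (1 + C₂) * Fintype.card ι := by nlinarith
  have hN0 : 0 ≤ (N : ℝ) * 20000 / Real.log 2 := by positivity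
  have hsum1' : ∑ i, (n1 i : ℝ) ≤ K1 * (1 + lam) := by
    refine hn1.trans ?_
    rw [hz1d, hK1, ← hr2]
    calc (2 * (Kp : ℝ) + 1) * (2 * π * (Real.sqrt lam * s0)) * (2 * Θ * (W1 * r))
        ≤ (2 * (Kp : ℝ) + 1) * (2 * π * (r * s0)) * (2 * Θ * (W1 * r)) := by gcongr
      _ = _ := by ring
  have hsum2' : ∑ i, (n2 i : ℝ) ≤ K2 * (1 + lam) := by
    refine hn2.trans ?_
    rw [hz2d, hK2, ← hr2]
    calc (2 * (Kq : ℝ) + 1) * (L * (Real.sqrt lam * s0)) * (2 * Θ * (W1 * r))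
        ≤ (2 * (Kq : ℝ) + 1) * (L * (r * s0)) * (2 * Θ * (W1 * r)) := by gcongr
      _ = _ := by ring
  calc ∑ i, doubling (fun p => f p.1 + g p.2) L φ (c i) (C / Real.sqrt lam)
      ≤ ∑ i, (N * 20000 / Real.log 2 * (2 * (n1 i : ℝ) + 2 * (n2 i : ℝ) + 1)) :=
        Finset.sum_le_sum fun i _ => hdisc i
    _ = N * 20000 / Real.log 2 * (2 * ∑ i, (n1 i : ℝ) + 2 * ∑ i, (n2 i : ℝ) +
        Fintype.card ι) := by
        rw [← Finset.mul_sum, Finset.sum_add_distrib,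
          Finset.sum_add_distrib, ← Finset.mul_sum, ← Finset.mul_sum, Finset.sum_const,
          Finset.card_univ, nsmul_eq_mul, mul_one]
    _ ≤ N * 20000 / Real.log 2 * (2 * (K1 * ((1 + C₂) * Fintype.card ι)) +
        2 * (K2 * ((1 + C₂) * Fintype.card ι)) + Fintype.card ι) := by
        have k1 : ∑ i, (n1 i : ℝ) ≤ K1 * ((1 + C₂) * Fintype.card ι) :=
          hsum1'.trans (mul_le_mul_of_nonneg_left hcard3 hK10)
        have k2 : ∑ i, (n2 i : ℝ) ≤ K2 * ((1 + C₂) * Fintype.card ι) :=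
          hsum2'.trans (mul_le_mul_of_nonneg_left hcard3 hK20)
        gcongr
    _ = (N * 20000 / Real.log 2 * ((2 * K1 + 2 * K2) * (1 + C₂) + 1)) * Fintype.card ι := by
        ring
    _ ≤ (N * 20000 / Real.log 2 * ((2 * K1 + 2 * K2) * (1 + C₂) + 1) + 1) * Fintype.card ι := by
        refine mul_le_mul_of_nonneg_right ?_ (by linarith)
        linarith

end Pool.Agent.NH44.LS
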